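import Pool.Agent.Helper73.Spec

set_option autoImplicit false

namespace Pool.Agent.Helper73

/-- A graph with a height function such that neighbours have different heights and each vertex has
at most one lower neighbour is acyclic. -/
theorem acyclic_of_height {V : Type} (G : SimpleGraph V) (h : V → ℕ)
    (h1 : ∀ u v, G.Adj u v → h u ≠ h v)
    (h2 : ∀ v u w, G.Adj v u → G.Adj v w → h u < h v → h w < h v → u = w) : G.IsAcyclic := by
  classical
  intro v c hc
  have hne : c.support.toFinset.Nonempty := ⟨v, by simp⟩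
  obtain ⟨m, hm, hmax⟩ := Finset.exists_max_image c.support.toFinset h hne
  have hm' : m ∈ c.support := by simpa using hm
  set c' := c.rotate m hm' with hc'
  have hcyc : c'.IsCycle := hc.rotate hm'
  have hsup : ∀ x, x ∈ c'.support → h x ≤ h m := by
    intro x hx
    refine hmax x ?_
    rw [List.mem_toFinset]
    by_cases hxm : x = m
    · subst hxm; exact hm'
    · have h5 : x ∈ c'.support.tail := by
        rw [← SimpleGraph.Walk.cons_tail_support] at hx
        rcases List.mem_cons.mp hx with h6 | h6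
        · exact absurd h6 hxm
        · exact h6
      have h6 := (c.support_rotate m hm').mem_iff.mp h5
      exact List.mem_of_mem_tail h6
  have hnn := hcyc.not_nil
  have a1 : G.Adj m c'.snd := c'.adj_snd hnn
  have a2 : G.Adj m c'.penultimate := (c'.adj_penultimate hnn).symm
  have m1 : c'.snd ∈ c'.support := List.mem_of_mem_tail (c'.snd_mem_tail_support hnn)
  have m2 : c'.penultimate ∈ c'.support :=
    List.mem_of_mem_dropLast (c'.penultimate_mem_dropLast_support hnn)
  have l1 := lt_of_le_of_ne (hsup _ m1) (h1 _ _ a1).symm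
  have l2 := lt_of_le_of_ne (hsup _ m2) (h1 _ _ a2).symm
  exact hcyc.snd_ne_penultimate (h2 m _ _ a1 a2 l1 l2)

/-- The Cayley graph of the free group of rank two. -/
def Cay : SimpleGraph F where
  Adj u v := ∃ y : L, v = u * gen y
  symm := ⟨by
    rintro u v ⟨y, rfl⟩
    exact ⟨iv y, by rw [gen_iv, mul_inv_cancel_right]⟩⟩
  loopless := ⟨by
    rintro u ⟨y, hy⟩
    exact gen_ne_one y (by simpa using hy.symm)⟩

theorem cay_adj {u v : F} : Cay.Adj u v ↔ ∃ y : L, v = u * gen y := Iff.rfl

/-- Height. -/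
def ht (u : F) : ℕ := len u⁻¹

theorem ht_gen (u : F) (y : L) : ht (u * gen y) = len (gen (iv y) * u⁻¹) := by
  rw [ht, mul_inv_rev, gen_iv]

theorem ht_up {u : F} {y : L} (h : u⁻¹ ∉ St y) : ht (u * gen y) = ht u + 1 := by
  rw [ht_gen, len_gen_mul (by rwa [iv_iv])]; rfl

theorem ht_down {u : F} {y : L} (h : u⁻¹ ∈ St y) : ht u = ht (u * gen y) + 1 := by
  rw [ht_gen, ht]
  have h1 : gen (iv y) * u⁻¹ ∉ St (iv y) := by
    rw [gen_mul_mem, iv_iv, not_not]; exact h
  have h2 := len_gen_mul h1
  rw [gen_iv, mul_inv_cancel_left] at h2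
  rw [gen_iv, h2]

theorem cay_acyclic : Cay.IsAcyclic := by
  refine acyclic_of_height Cay ht ?_ ?_
  · rintro u v ⟨y, rfl⟩
    by_cases h : u⁻¹ ∈ St y
    · have := ht_down h; omega
    · have := ht_up h; omega
  · rintro v u w ⟨y, rfl⟩ ⟨z, rfl⟩ h1 h2
    have e1 : v⁻¹ ∈ St y := by
      by_contra h; have := ht_up h; omega
    have e2 : v⁻¹ ∈ St z := by
      by_contra h; have := ht_up h; omega
    rw [St_unique e1 e2]

theorem cay_reach (w : F) : ∀ v : F, Cay.Reachable v (v * w) := by
  refine FreeGroup.induction_on (C := fun w => ∀ v : F, Cay.Reachable v (v * w)) w ?_ ?_ ?_ ?_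
  · intro v; rw [mul_one]
  · intro i v; exact SimpleGraph.Adj.reachable ⟨(i, true), rfl⟩
  · intro i _ v; exact SimpleGraph.Adj.reachable ⟨(i, false), rfl⟩
  · intro a b ha hb v
    rw [← mul_assoc]
    exact (ha v).trans (hb (v * a))

theorem cay_tree : Cay.IsTree := by
  refine ⟨?_, cay_acyclic⟩
  have : Nonempty F := ⟨1⟩
  refine ⟨fun u v => ?_⟩
  have := cay_reach (u⁻¹ * v) u
  rwa [mul_inv_cancel_left] at this

/-- Letters and neighbours. -/
noncomputable def nbE (v : F) : L ≃ Cay.neighborSet v :=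
  Equiv.ofBijective (fun y => ⟨v * gen y, ⟨y, rfl⟩⟩) (by
    constructor
    · intro y z h
      have := congrArg Subtype.val h
      exact gen_inj (mul_left_cancel this)
    · rintro ⟨w, y, rfl⟩
      exact ⟨y, rfl⟩)

theorem cay_card (v : F) : Nat.card (Cay.neighborSet v) = 4 := by
  rw [← Nat.card_congr (nbE v)]
  simp

/-- Left translation as a graph automorphism. -/
def lft (g : F) : Cay ≃g Cay where
  toEquiv := Equiv.mulLeft g
  map_rel_iff' := by
    intro u v
    simp only [cay_adj, Equiv.coe_mulLeft, mul_assoc]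
    constructor
    · rintro ⟨y, hy⟩
      exact ⟨y, mul_left_cancel hy⟩
    · rintro ⟨y, rfl⟩
      exact ⟨y, rfl⟩

@[simp] theorem lft_apply (g v : F) : lft g v = g * v := rfl

/-- The group of automorphisms. -/
def Gam : Subgroup (Cay ≃g Cay) where
  carrier := {φ | ∃ g : F, chi g = 1 ∧ φ = lft g}
  mul_mem' := by
    rintro _ _ ⟨g, hg, rfl⟩ ⟨h, hh, rfl⟩
    refine ⟨g * h, by rw [map_mul, hg, hh, mul_one], ?_⟩
    ext v
    simp [mul_assoc]
  one_mem' := ⟨1, map_one _, by ext v; simp⟩
  inv_mem' := by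
    rintro _ ⟨g, hg, rfl⟩
    refine ⟨g⁻¹, by rw [map_inv, hg, inv_one], ?_⟩
    rw [inv_eq_iff_mul_eq_one]
    ext v
    simp

end Pool.Agent.Helper73
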