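import Pool.Agent.Helper73.Cayley
import Pool.Agent.Helper73.SpecT

set_option autoImplicit false

open scoped ENNReal ComplexConjugate

namespace Pool.Agent.Helper73.T5

/-- The Cayley graph of the free product of five groups of order two. -/
def Cay : SimpleGraph W where
  Adj u v := ∃ y : L, v = u * gen y
  symm := ⟨by
    rintro u v ⟨y, rfl⟩
    exact ⟨y, by rw [gen_cancel']⟩⟩
  loopless := ⟨by
    rintro u ⟨y, hy⟩
    exact gen_ne_one y (by simpa using hy.symm)⟩

theorem cay_adj {u v : W} : Cay.Adj u v ↔ ∃ y : L, v = u * gen y := Iff.rfl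

/-- Height. -/
noncomputable def ht (u : W) : ℕ := len u⁻¹

theorem ht_gen (u : W) (y : L) : ht (u * gen y) = len (gen y * u⁻¹) := by
  rw [ht, mul_inv_rev, gen_inv]

theorem ht_up {u : W} {y : L} (h : u⁻¹ ∉ St y) : ht (u * gen y) = ht u + 1 := by
  rw [ht_gen, len_gen_mul h]; rfl

theorem ht_down {u : W} {y : L} (h : u⁻¹ ∈ St y) : ht u = ht (u * gen y) + 1 := by
  rw [ht_gen, ht]
  have h1 : gen y * u⁻¹ ∉ St y := by
    rw [gen_mul_mem, not_not]; exact h
  have h2 := len_gen_mul h1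
  rw [gen_cancel] at h2
  exact h2

theorem cay_acyclic : Cay.IsAcyclic := by
  refine acyclic_of_height Cay ht ?_ ?_
  · rintro u v ⟨y, rfl⟩
    by_cases h : u⁻¹ ∈ St y
    · have := ht_down h; omega
    · have := ht_up h; omega
  · rintro v u w ⟨y, rfl⟩ ⟨z, rfl⟩ h1 h2
    have e1 : v⁻¹ ∈ St y := by
      by_contra h; have := ht_up h; omega
    have e2 : v⁻¹ ∈ St z := by
      by_contra h; have := ht_up h; omega
    rw [St_unique e1 e2]

theorem cay_reach_aux : ∀ (n : ℕ) (w : W), len w ≤ n → ∀ v : W, Cay.Reachable v (v * w) := by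
  intro n
  induction n with
  | zero =>
    intro w hw v
    have : w = 1 := len_zero (Nat.le_zero.mp hw)
    subst this
    rw [mul_one]
  | succ n ih =>
    intro w hw v
    by_cases hw1 : w = 1
    · subst hw1; rw [mul_one]
    · obtain ⟨x, hx⟩ := exists_St hw1
      obtain ⟨u, rfl, hu, hlen⟩ := exists_decomp hx
      rw [← mul_assoc]
      exact (SimpleGraph.Adj.reachable (cay_adj.mpr ⟨x, rfl⟩)).trans (ih u (by omega) (v * gen x))

theorem cay_tree : Cay.IsTree := by
  refine ⟨?_, cay_acyclic⟩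
  have : Nonempty W := ⟨1⟩
  refine ⟨fun u v => ?_⟩
  have := cay_reach_aux _ (u⁻¹ * v) le_rfl u
  rwa [mul_inv_cancel_left] at this

/-- Letters and neighbours. -/
noncomputable def nbE (v : W) : L ≃ Cay.neighborSet v :=
  Equiv.ofBijective (fun y => ⟨v * gen y, ⟨y, rfl⟩⟩) (by
    constructor
    · intro y z h
      have := congrArg Subtype.val h
      exact gen_inj (mul_left_cancel this)
    · rintro ⟨w, y, rfl⟩
      exact ⟨y, rfl⟩)

theorem cay_card (v : W) : (Cay.neighborSet v).ncard = 5 := by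
  rw [Set.ncard, Set.encard, ENat.card_congr (nbE v).symm]
  simp

/-- Left translation as a graph automorphism. -/
def lft (g : W) : Cay ≃g Cay where
  toEquiv := Equiv.mulLeft g
  map_rel_iff' := by
    intro u v
    simp only [cay_adj, Equiv.coe_mulLeft, mul_assoc]
    constructor
    · rintro ⟨y, hy⟩
      exact ⟨y, mul_left_cancel hy⟩
    · rintro ⟨y, rfl⟩
      exact ⟨y, rfl⟩

@[simp] theorem lft_apply (g v : W) : lft g v = g * v := rfl

/-- The group of automorphisms. -/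
def Gam : Subgroup (Cay ≃g Cay) where
  carrier := {φ | ∃ g : W, (chi g = 1 ∧ par g = 1) ∧ φ = lft g}
  mul_mem' := by
    rintro _ _ ⟨g, hg, rfl⟩ ⟨h, hh, rfl⟩
    refine ⟨g * h, ⟨by rw [map_mul, hg.1, hh.1, mul_one], by rw [map_mul, hg.2, hh.2, mul_one]⟩, ?_⟩
    ext v
    simp [mul_assoc]
  one_mem' := ⟨1, ⟨map_one _, map_one _⟩, by ext v; simp⟩
  inv_mem' := by
    rintro _ ⟨g, hg, rfl⟩
    refine ⟨g⁻¹, ⟨by rw [map_inv, hg.1, inv_one], by rw [map_inv, hg.2, inv_one]⟩, ?_⟩
    rw [inv_eq_iff_mul_eq_one]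
    ext v
    simp

/-- Sum over the neighbours. -/
theorem finsum_nb (v : W) (g : W → ℝ) :
    (∑ᶠ w ∈ Cay.neighborSet v, g w) = ∑ y : L, g (v * gen y) := by
  have h1 : Cay.neighborSet v = Set.range (fun y : L => v * gen y) := by
    ext w
    constructor
    · rintro ⟨y, rfl⟩; exact ⟨y, rfl⟩
    · rintro ⟨y, rfl⟩; exact ⟨y, rfl⟩
  rw [h1, finsum_mem_range (fun y z h => gen_inj (mul_left_cancel h)), finsum_eq_sum_of_fintype]

/-- The operator in the statement, on finitely supported functions. -/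
noncomputable def Rop (β t : ℝ) (ψ : W → ℝ) (v : W) : ℝ :=
  (pot β 1 v - t) * ψ v + ∑ y : L, ψ (v * gen y)

theorem Rop_eq (β t : ℝ) (ψ : W → ℝ) (v : W) : Rop β t ψ v = - Lop β 1 t ψ v := by
  unfold Rop Lop; ring

theorem Rop_support (β t : ℝ) (ψ : W →₀ ℝ) :
    (Function.support fun v => (Rop β t ψ v) ^ 2).Finite := by
  have h1 : (Function.support fun v => (Rop β t ψ v) ^ 2)
      ⊆ (ψ.support : Set W) ∪ ⋃ y : L, (fun v => v * gen y) '' (ψ.support : Set W) := by
    intro v hv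
    by_contra hcon
    rw [Set.mem_union, not_or] at hcon
    apply hv
    have e1 : ψ v = 0 := by simpa using hcon.1
    have e2 : ∀ y : L, ψ (v * gen y) = 0 := by
      intro y
      by_contra hne
      apply hcon.2
      rw [Set.mem_iUnion]
      exact ⟨y, v * gen y, by simpa using hne, by simp [gen_cancel']⟩
    simp [Rop, e1, e2]
  refine Set.Finite.subset ?_ h1
  refine Set.Finite.union ψ.support.finite_toSet (Set.finite_iUnion fun y => ?_)
  exact ψ.support.finite_toSet.image _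

/-- Complexification. -/
noncomputable def cx (ψ : W →₀ ℝ) : E2 W := mkE2 (fun v => (ψ v : ℂ)) (by
  refine summable_of_hasFiniteSupport ?_
  refine Set.Finite.subset ψ.support.finite_toSet fun v hv => ?_
  simpa using hv)

@[simp] theorem cx_apply (ψ : W →₀ ℝ) (v : W) : cx ψ v = (ψ v : ℂ) := rfl

theorem cx_norm (ψ : W →₀ ℝ) : ‖cx ψ‖ ^ 2 = ∑ᶠ v, ψ v ^ 2 := by
  rw [E2.norm_sq, ← tsum_eq_finsum (L := SummationFilter.unconditional W)]
  · refine tsum_congr fun v => ?_
    simp
  · refine Set.Finite.subset ψ.support.finite_toSet fun v hv => ?_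
    simpa using hv

section op

variable {β : ℝ} {H : E2 W →L[ℂ] E2 W} (hH : IsH (Equiv.refl W) β H)
include hH

theorem lam_apply (t : ℝ) (f : E2 W) (v : W) :
    (algebraMap ℂ (E2 W →L[ℂ] E2 W) (t : ℂ) - H) f v
      = ((t - pot β 1 v : ℝ) : ℂ) * f v - ∑ y : L, f (v * gen y) :=
  lamH_apply hH t f v

theorem lam_cx (t : ℝ) (ψ : W →₀ ℝ) (v : W) :
    (algebraMap ℂ (E2 W →L[ℂ] E2 W) (t : ℂ) - H) (cx ψ) v = ((- Rop β t ψ v : ℝ) : ℂ) := by
  rw [lam_apply hH]
  simp only [cx_apply]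
  unfold Rop
  push_cast
  ring

theorem lam_norm (t : ℝ) (ψ : W →₀ ℝ) :
    ‖(algebraMap ℂ (E2 W →L[ℂ] E2 W) (t : ℂ) - H) (cx ψ)‖ ^ 2 = ∑ᶠ v, (Rop β t ψ v) ^ 2 := by
  rw [E2.norm_sq, ← tsum_eq_finsum (L := SummationFilter.unconditional W) (Rop_support β t ψ)]
  refine tsum_congr fun v => ?_
  rw [lam_cx hH, Complex.norm_real, Real.norm_eq_abs, sq_abs]
  ring

omit hH in
theorem norm_comb (u v : E2 W) (hu : ∀ w, (u w).im = 0) (hv : ∀ w, (v w).im = 0) :
    ‖u + Complex.I • v‖ ^ 2 = ‖u‖ ^ 2 + ‖v‖ ^ 2 := by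
  rw [E2.norm_sq, E2.norm_sq, E2.norm_sq, ← (E2.summable u).tsum_add (E2.summable v)]
  refine tsum_congr fun w => ?_
  rw [lp.coeFn_add, Pi.add_apply, lp.coeFn_smul, Pi.smul_apply, smul_eq_mul,
    ← Complex.normSq_eq_norm_sq, ← Complex.normSq_eq_norm_sq, ← Complex.normSq_eq_norm_sq,
    Complex.normSq_apply, Complex.normSq_apply, Complex.normSq_apply]
  simp [hu w, hv w]

/-- The set in the statement is the spectrum. -/
theorem spec_iff (t : ℝ) :
    (∀ ε : ℝ, 0 < ε → ∃ ψ : W →₀ ℝ, ψ ≠ 0 ∧ (∑ᶠ v, (Rop β t ψ v) ^ 2) < ε * ∑ᶠ v, ψ v ^ 2)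
      ↔ (t : ℂ) ∈ spectrum ℂ H := by
  set T := algebraMap ℂ (E2 W →L[ℂ] E2 W) (t : ℂ) - H with hT
  constructor
  · intro h hcon
    have hcon' : IsUnit T := hcon
    obtain ⟨U, hU⟩ := hcon'
    set S : E2 W →L[ℂ] E2 W := (↑U⁻¹ : E2 W →L[ℂ] E2 W) with hS
    have h1 : ∀ x, S (T x) = x := by
      intro x
      have h2 : S * T = 1 := by rw [← hU]; exact Units.inv_mul U
      have := congrArg (fun A : E2 W →L[ℂ] E2 W => A x) h2
      simpa using this
    obtain ⟨ψ, hψ, hlt⟩ := h (1 / (‖S‖ ^ 2 + 1)) (by positivity)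
    rw [← cx_norm, ← lam_norm hH] at hlt
    have h3 : ‖cx ψ‖ ≤ ‖S‖ * ‖T (cx ψ)‖ := by
      conv_lhs => rw [← h1 (cx ψ)]
      exact S.le_opNorm _
    have h4 : ‖cx ψ‖ ^ 2 ≤ ‖S‖ ^ 2 * ‖T (cx ψ)‖ ^ 2 := by
      rw [← mul_pow]
      exact pow_le_pow_left₀ (norm_nonneg _) h3 2
    rw [one_div, inv_mul_eq_div, lt_div_iff₀ (by positivity)] at hlt
    have h5 : 0 ≤ ‖T (cx ψ)‖ ^ 2 := sq_nonneg _
    nlinarith
  · intro h
    by_contra hcon
    push Not at hcon
    obtain ⟨ε, hε, hb⟩ := hcon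
    have hb' : ∀ ψ : W →₀ ℝ, ε * ‖cx ψ‖ ^ 2 ≤ ‖T (cx ψ)‖ ^ 2 := by
      intro ψ
      by_cases hψ : ψ = 0
      · have : cx ψ = 0 := by
          subst hψ
          exact E2.ext' fun v => by simp
        rw [this]; simp
      · rw [cx_norm, hT, lam_norm hH]
        exact hb ψ hψ
    have hb2 : ∀ x : E2 W, ε * ‖x‖ ^ 2 ≤ ‖T x‖ ^ 2 := by
      classical
      intro x
      have hx := lp.hasSum_single (p := 2) (by norm_num) x
      have key : ∀ s : Finset W, ε * ‖∑ i ∈ s, lp.single 2 i (x i)‖ ^ 2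
          ≤ ‖T (∑ i ∈ s, lp.single 2 i (x i))‖ ^ 2 := by
        intro s
        set p : W →₀ ℝ := Finsupp.onFinset s (fun i => if i ∈ s then (x i).re else 0)
          (by intro a ha; by_contra h; simp [h] at ha) with hp
        set q : W →₀ ℝ := Finsupp.onFinset s (fun i => if i ∈ s then (x i).im else 0)
          (by intro a ha; by_contra h; simp [h] at ha) with hq
        have e1 : (∑ i ∈ s, lp.single 2 i (x i) : E2 W) = cx p + Complex.I • cx q := by
          refine E2.ext' fun v => ?_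
          rw [lp.coeFn_add, Pi.add_apply, lp.coeFn_smul, Pi.smul_apply, smul_eq_mul,
            lp.coeFn_sum, Finset.sum_apply]
          have e3 : ∀ c ∈ s, (lp.single 2 c (x c) : E2 W) v = if c = v then x c else 0 := by
            intro c _
            rw [lp.single_apply]
            by_cases hcv : c = v
            · subst hcv; simp
            · rw [if_neg hcv, Pi.single_eq_of_ne (fun h => hcv h.symm)]
          rw [Finset.sum_congr rfl e3, Finset.sum_ite_eq']
          simp only [cx_apply, hp, hq, Finsupp.onFinset_apply]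
          split_ifs
          · rw [mul_comm]; exact (Complex.re_add_im _).symm
          · simp
        rw [e1, map_add, map_smul, norm_comb _ _ (fun w => by simp) (fun w => by simp),
          norm_comb]
        · have := hb' p
          have := hb' q
          linarith
        · intro w; rw [hT, lam_cx hH]; exact Complex.ofReal_im _
        · intro w; rw [hT, lam_cx hH]; exact Complex.ofReal_im _
      have l1 : Filter.Tendsto (fun s : Finset W => ε * ‖∑ i ∈ s, lp.single 2 i (x i)‖ ^ 2)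
          Filter.atTop (nhds (ε * ‖x‖ ^ 2)) := (hx.norm.pow 2).const_mul ε
      have l2 : Filter.Tendsto (fun s : Finset W => ‖T (∑ i ∈ s, lp.single 2 i (x i))‖ ^ 2)
          Filter.atTop (nhds (‖T x‖ ^ 2)) := ((T.continuous.tendsto x).comp hx).norm.pow 2
      exact le_of_tendsto_of_tendsto' l1 l2 key
    have hsym : ∀ x z : E2 W, inner ℂ (T x) z = inner ℂ x (T z) := by
      intro x z
      have h1 : ∀ x : E2 W, T x = (t : ℂ) • x - H x := by
        intro x
        rw [hT, sub_apply, Algebra.algebraMap_eq_smul_one]; rfl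
      rw [h1, h1, inner_sub_left, inner_sub_right, inner_smul_left, inner_smul_right,
        H_symm hH, Complex.conj_ofReal]
    have hu : IsUnit (T * T) := by
      refine ContinuousLinearMap.isUnit_of_forall_le_norm_inner_map _
        (c := ⟨ε, hε.le⟩) hε fun x => ?_
      have e1 : (T * T) x = T (T x) := rfl
      rw [e1, hsym, inner_self_eq_norm_sq_to_K]
      have e2 := hb2 x
      change ‖x‖ ^ 2 * ε ≤ _
      have e3 : ‖((‖T x‖ : ℂ)) ^ 2‖ = ‖T x‖ ^ 2 := by simp
      calc ‖x‖ ^ 2 * ε = ε * ‖x‖ ^ 2 := mul_comm _ _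
        _ ≤ ‖T x‖ ^ 2 := e2
        _ = _ := e3.symm
    have hu2 : IsUnit T := ((Commute.refl T).isUnit_mul_iff.mp hu).1
    exact h hu2

end op

end Pool.Agent.Helper73.T5
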