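import Pool.Agent.Helper73.Words

set_option autoImplicit false

namespace Pool.Agent.Helper73

/-- Kronecker delta. -/
noncomputable def dl (a w : F) : ℝ := by classical exact if w = a then 1 else 0

theorem dl_self (a : F) : dl a a = 1 := by simp [dl]
theorem dl_ne {a w : F} (h : w ≠ a) : dl a w = 0 := by simp [dl, h]

/-- The potential `β σ χ(w)`. -/
noncomputable def pot (β : ℝ) (σ : ℤˣ) (w : F) : ℝ := β * (((σ * chi w : ℤˣ) : ℤ) : ℝ)

/-- The operator `λ - H`. -/
noncomputable def Lop (β : ℝ) (σ : ℤˣ) (lam : ℝ) (f : F → ℝ) (w : F) : ℝ :=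
  (lam - pot β σ w) * f w - ∑ y : L, f (w * gen y)

/-- Square summability. -/
def Sq (f : F → ℝ) : Prop := Summable fun w => f w ^ 2

theorem Sq.add {f g : F → ℝ} (hf : Sq f) (hg : Sq g) : Sq fun w => f w + g w := by
  refine Summable.of_nonneg_of_le (fun w => sq_nonneg _) (fun w => ?_)
    ((hf.mul_left 2).add (hg.mul_left 2))
  nlinarith [sq_nonneg (f w - g w)]

theorem Sq.smul {f : F → ℝ} (hf : Sq f) (c : ℝ) : Sq fun w => c * f w := by
  have := hf.mul_left (c ^ 2)
  refine this.congr fun w => ?_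
  ring

theorem Sq.comp {f : F → ℝ} (hf : Sq f) (e : F ≃ F) : Sq fun w => f (e w) :=
  (e.summable_iff (f := fun w => f w ^ 2)).mpr hf

theorem Sq.indicator {f : F → ℝ} (hf : Sq f) (T : Set F) [DecidablePred (· ∈ T)] :
    Sq fun w => if w ∈ T then f w else 0 := by
  refine Summable.of_nonneg_of_le (fun w => sq_nonneg _) (fun w => ?_) hf
  beta_reduce
  split_ifs
  · exact le_rfl
  · simpa using sq_nonneg (f w)

theorem pot_shift (β : ℝ) (σ : ℤˣ) (x : L) (w : F) :
    pot β (σ * chi (gen x)) ((gen x)⁻¹ * w) = pot β σ w := by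
  unfold pot
  congr 3
  rw [map_mul, map_inv]
  calc σ * chi (gen x) * ((chi (gen x))⁻¹ * chi w)
      = σ * (chi (gen x) * (chi (gen x))⁻¹) * chi w := by group
    _ = _ := by rw [mul_inv_cancel, mul_one]

theorem Lop_shift {β : ℝ} {σ : ℤˣ} {lam : ℝ} (f : F → ℝ) (x : L) (w : F) :
    Lop β σ lam (fun w => f ((gen x)⁻¹ * w)) w
      = Lop β (σ * chi (gen x)) lam f ((gen x)⁻¹ * w) := by
  unfold Lop
  rw [pot_shift]
  simp only [mul_assoc]

theorem Lop_io {β : ℝ} {σ : ℤˣ} {lam : ℝ} (f : F → ℝ) (w : F) :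
    Lop β σ lam (fun w => f (io w)) w = Lop β σ lam f (io w) := by
  unfold Lop
  have h1 : pot β σ (io w) = pot β σ w := by unfold pot; rw [chi_io]
  rw [h1]
  congr 1
  let e : L ≃ L := ⟨iv, iv, iv_iv, iv_iv⟩
  rw [← e.sum_comp (fun y => f (io w * gen y))]
  refine Finset.sum_congr rfl fun y _ => ?_
  beta_reduce
  rw [map_mul, io_gen]
  rfl

theorem Lop_add {β : ℝ} {σ : ℤˣ} {lam : ℝ} (f g : F → ℝ) (a b : ℝ) (w : F) :
    Lop β σ lam (fun w => a * f w + b * g w) w
      = a * Lop β σ lam f w + b * Lop β σ lam g w := by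
  unfold Lop
  rw [Finset.sum_add_distrib, ← Finset.mul_sum, ← Finset.mul_sum]
  ring

/-- The data: Green functions for both signs, and uniqueness. -/
structure Green (β lam : ℝ) (f : ℤˣ → F → ℝ) : Prop where
  sq : ∀ σ, Sq (f σ)
  eq : ∀ σ w, Lop β σ lam (f σ) w = dl 1 w
  uniq : ∀ σ (g : F → ℝ), Sq g → (∀ w, Lop β σ lam g w = 0) → ∀ w, g w = 0

namespace Green

variable {β lam : ℝ} {f : ℤˣ → F → ℝ} (G : Green β lam f)
include G

theorem io_inv (σ : ℤˣ) (w : F) : f σ (io w) = f σ w := by
  have h := G.uniq σ (fun w => 1 * f σ (io w) + (-1) * f σ w)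
    (((G.sq σ).comp ioE).smul 1 |>.add ((G.sq σ).smul (-1))) (fun w => by
      rw [Lop_add (fun w => f σ (io w)) (f σ), Lop_io, G.eq, G.eq]
      have : dl 1 (io w) = dl 1 w := by
        by_cases hw : w = 1
        · subst hw; rw [map_one]
        · have : io w ≠ 1 := by
            intro hh
            apply hw
            rw [← io_io w, hh, map_one]
          rw [dl_ne this, dl_ne hw]
      rw [this]; ring) w
  linarith

theorem f_iv (σ : ℤˣ) (x : L) : f σ (gen (iv x)) = f σ (gen x) := by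
  rw [← io_gen, G.io_inv]

/-- `Lop` of the restriction of the Green function to a branch. -/
theorem Lop_branch (σ : ℤˣ) (x : L) (w : F) :
    Lop β σ lam (fun w => if w ∈ St x then f σ w else 0) w
      = f σ 1 * dl (gen x) w - f σ (gen x) * dl 1 w := by
  have key : Lop β σ lam (fun w => if w ∈ St x then f σ w else 0) w
      = (if w ∈ St x then dl 1 w else 0) + ∑ y : L, ((if w ∈ St x then 1 else 0)
        - (if w * gen y ∈ St x then (1 : ℝ) else 0)) * f σ (w * gen y) := by
    have h1 := G.eq σ w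
    unfold Lop at h1 ⊢
    by_cases hw : w ∈ St x
    · simp only [hw, if_true]
      rw [← h1]
      simp only [sub_mul, one_mul, Finset.sum_sub_distrib]
      simp only [ite_mul, one_mul, zero_mul]
      ring
    · simp only [hw, if_false]
      simp only [zero_sub, neg_mul, ite_mul, one_mul, zero_mul, Finset.sum_neg_distrib]
      ring
  rw [key]
  by_cases hw1 : w = 1
  · subst hw1
    rw [if_neg (one_notMem_St x), dl_self, dl_ne (gen_ne_one x).symm]
    rw [Finset.sum_eq_single x]
    · simp [one_notMem_St, gen_mem_St]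
    · intro y _ hy
      simp [one_notMem_St, gen_mem_St, hy]
    · intro h; exact absurd (Finset.mem_univ x) h
  · rw [dl_ne hw1]
    by_cases hw2 : w = gen x
    · subst hw2
      rw [dl_self]
      rw [Finset.sum_eq_single (iv x)]
      · have h3 : gen x * gen (iv x) = 1 := by rw [gen_iv, mul_inv_cancel]
        rw [h3]
        simp [one_notMem_St, gen_mem_St]
      · intro y _ hy
        have h3 : gen x * gen y ∈ St x := by
          rw [gen_mul_mem, gen_mem_St]; exact hy
        rw [if_pos (gen_mem_St.mpr rfl), if_pos h3]; ring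
      · intro h; exact absurd (Finset.mem_univ (iv x)) h
    · rw [dl_ne hw2]
      rw [Finset.sum_eq_zero]
      · simp
      · intro y _
        by_cases hw : w ∈ St x
        · by_cases hwy : w * gen y ∈ St x
          · rw [if_pos hw, if_pos hwy]; ring
          · exact absurd (boundary hw hwy).1 hw2
        · by_cases hwy : w * gen y ∈ St x
          · exact absurd (boundary' hw hwy).1 hw1
          · rw [if_neg hw, if_neg hwy]; ring

/-- The splitting identity. -/
theorem split (σ : ℤˣ) (x : L) (w : F) :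
    (if w ∈ St x then f σ w else 0)
      = f σ 1 * f (σ * chi (gen x)) ((gen x)⁻¹ * w) - f σ (gen x) * f σ w := by
  have hsh : Sq fun w => f (σ * chi (gen x)) ((gen x)⁻¹ * w) :=
    (G.sq (σ * chi (gen x))).comp (Equiv.mulLeft (gen x)⁻¹)
  have hshift : ∀ w, Lop β σ lam (fun w => f (σ * chi (gen x)) ((gen x)⁻¹ * w)) w
      = dl (gen x) w := by
    intro w
    rw [Lop_shift, G.eq]
    by_cases hw : w = gen x
    · subst hw; rw [inv_mul_cancel, dl_self, dl_self]
    · rw [dl_ne hw, dl_ne]
      intro hh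
      exact hw (by rw [inv_mul_eq_one] at hh; exact hh.symm)
  have h := G.uniq σ (fun w => 1 * (if w ∈ St x then f σ w else 0) +
      1 * ((-f σ 1) * f (σ * chi (gen x)) ((gen x)⁻¹ * w) + f σ (gen x) * f σ w))
    ((((G.sq σ).indicator (St x)).smul 1).add
      (((hsh.smul _).add ((G.sq σ).smul _)).smul 1)) (fun w => by
      rw [Lop_add (fun w => if w ∈ St x then f σ w else 0)
        (fun w => (-f σ 1) * f (σ * chi (gen x)) ((gen x)⁻¹ * w) + f σ (gen x) * f σ w),
        Lop_add (fun w => f (σ * chi (gen x)) ((gen x)⁻¹ * w)) (f σ), G.Lop_branch, hshift, G.eq]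
      ring) w
  linarith

theorem g_ne (σ : ℤˣ) : f σ 1 ≠ 0 := by
  intro hg
  have hc : ∀ x, f σ (gen x) = 0 ∨ f σ (gen x) = -1 := by
    intro x
    have := G.split σ x (gen x)
    rw [if_pos (gen_mem_St.mpr rfl), hg, zero_mul, zero_sub] at this
    have h2 : f σ (gen x) * (1 + f σ (gen x)) = 0 := by linarith
    rcases mul_eq_zero.mp h2 with h | h
    · exact Or.inl h
    · exact Or.inr (by linarith)
  have h1 := G.eq σ 1
  unfold Lop at h1
  rw [hg, dl_self, mul_zero, zero_sub] at h1
  simp only [one_mul] at h1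
  rw [Fintype.sum_prod_type] at h1
  simp only [Fin.sum_univ_two, Fintype.sum_bool] at h1
  have h2 := G.f_iv σ (0, true)
  have h3 := G.f_iv σ (1, true)
  simp only [iv, Bool.not_true] at h2 h3
  rw [h2, h3] at h1
  rcases hc (0, true) with h4 | h4 <;> rcases hc (1, true) with h5 | h5 <;> rw [h4, h5] at h1 <;>
    norm_num at h1

/-- Symmetry. -/
theorem symm (σ : ℤˣ) (x : L) : f (σ * chi (gen x)) (gen x) = f σ (gen x) := by
  have h := G.split σ x 1
  rw [if_neg (one_notMem_St x), mul_one, ← gen_iv, G.f_iv] at h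
  have := G.g_ne σ
  have h2 : f σ 1 * (f (σ * chi (gen x)) (gen x) - f σ (gen x)) = 0 := by linarith
  rcases mul_eq_zero.mp h2 with h | h
  · exact absurd h this
  · linarith

theorem prod_eq (σ : ℤˣ) (x : L) :
    f σ 1 * f (σ * chi (gen x)) 1 = f σ (gen x) * (1 + f σ (gen x)) := by
  have h := G.split σ x (gen x)
  rw [if_pos (gen_mem_St.mpr rfl), inv_mul_cancel] at h
  linarith

/-- Mass of a set. -/
noncomputable def _root_.Pool.Agent.Helper73.mass (h : F → ℝ) (T : Set F)
    [DecidablePred (· ∈ T)] : ℝ := ∑' w, if w ∈ T then h w ^ 2 else 0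

omit G in
theorem summable_mass {h : F → ℝ} (hh : Sq h) (T : Set F) [DecidablePred (· ∈ T)] :
    Summable fun w => if w ∈ T then h w ^ 2 else 0 := by
  refine Summable.of_nonneg_of_le (fun w => ?_) (fun w => ?_) hh
  · split_ifs
    · exact sq_nonneg _
    · exact le_rfl
  · split_ifs
    · exact le_rfl
    · exact sq_nonneg _

omit G in
theorem mass_nonneg (h : F → ℝ) (T : Set F) [DecidablePred (· ∈ T)] : 0 ≤ mass h T := by
  refine tsum_nonneg fun w => ?_
  split_ifs
  · exact sq_nonneg _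
  · exact le_rfl

theorem mass_iv (σ : ℤˣ) (x : L) : mass (f σ) (St (iv x)) = mass (f σ) (St x) := by
  unfold mass
  rw [← ioE.tsum_eq (fun w => if w ∈ St (iv x) then f σ w ^ 2 else 0)]
  refine tsum_congr fun w => ?_
  have h1 : ioE w = io w := rfl
  rw [h1, G.io_inv]
  simp only [io_St]

/-- Twice the mass of a branch is at most the total mass. -/
theorem mass_half (σ : ℤˣ) (x : L) : 2 * mass (f σ) (St x) ≤ ∑' w, f σ w ^ 2 := by
  have h1 : 2 * mass (f σ) (St x) = mass (f σ) (St x) + mass (f σ) (St (iv x)) := by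
    rw [G.mass_iv]; ring
  rw [h1]
  unfold mass
  rw [← (summable_mass (G.sq σ) (St x)).tsum_add (summable_mass (G.sq σ) (St (iv x)))]
  refine Summable.tsum_le_tsum (fun w => ?_)
    ((summable_mass (G.sq σ) (St x)).add (summable_mass (G.sq σ) (St (iv x)))) (G.sq σ)
  by_cases h1 : w ∈ St x
  · have h2 : w ∉ St (iv x) := fun h2 => iv_ne x (St_unique h2 h1)
    rw [if_pos h1, if_neg h2, add_zero]
  · rw [if_neg h1, zero_add]
    split_ifs
    · exact le_rfl
    · exact sq_nonneg _

omit G in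
theorem mass_compl {h : F → ℝ} (hh : Sq h) (T : Set F) [DecidablePred (· ∈ T)] :
    (∑' w, if w ∈ T then 0 else h w ^ 2) = ∑' w, h w ^ 2 - mass h T := by
  unfold mass
  rw [← hh.tsum_sub (summable_mass hh T)]
  refine tsum_congr fun w => ?_
  split_ifs <;> ring

/-- Mass relation on the branch. -/
theorem mass_in (σ : ℤˣ) (x : L) :
    (1 + f σ (gen x)) ^ 2 * mass (f σ) (St x)
      = (f σ 1) ^ 2 * (∑' w, f (σ * chi (gen x)) w ^ 2
          - mass (f (σ * chi (gen x))) (St x)) := by
  rw [← G.mass_iv (σ * chi (gen x)) x, ← mass_compl (G.sq _), mass, ← tsum_mul_left,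
    ← tsum_mul_left, ← (Equiv.mulLeft (gen x)⁻¹).tsum_eq
    (fun w => (f σ 1) ^ 2 * (if w ∈ St (iv x) then 0 else f (σ * chi (gen x)) w ^ 2))]
  refine tsum_congr fun w => ?_
  have h1 : (Equiv.mulLeft (gen x)⁻¹) w = (gen x)⁻¹ * w := rfl
  rw [h1]
  have h2 : (gen x)⁻¹ * w ∈ St (iv x) ↔ w ∉ St x := by
    have := gen_mul_mem (x := x) (u := (gen x)⁻¹ * w)
    rw [mul_inv_cancel_left] at this
    tauto
  have h3 := G.split σ x w
  by_cases hw : w ∈ St x
  · have h4 : (gen x)⁻¹ * w ∉ St (iv x) := by rw [h2]; simpa using hw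
    rw [if_pos hw, if_neg h4, ← mul_pow, ← mul_pow]
    rw [if_pos hw] at h3
    congr 1; linarith
  · have h4 : (gen x)⁻¹ * w ∈ St (iv x) := h2.mpr hw
    rw [if_neg hw, if_pos h4]; ring

/-- Mass relation off the branch. -/
theorem mass_out (σ : ℤˣ) (x : L) :
    (f σ (gen x)) ^ 2 * (∑' w, f σ w ^ 2 - mass (f σ) (St x))
      = (f σ 1) ^ 2 * mass (f (σ * chi (gen x))) (St x) := by
  rw [← G.mass_iv (σ * chi (gen x)) x, ← mass_compl (G.sq _), mass, ← tsum_mul_left,
    ← tsum_mul_left, ← (Equiv.mulLeft (gen x)⁻¹).tsum_eq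
    (fun w => (f σ 1) ^ 2 * (if w ∈ St (iv x) then f (σ * chi (gen x)) w ^ 2 else 0))]
  refine tsum_congr fun w => ?_
  have h1 : (Equiv.mulLeft (gen x)⁻¹) w = (gen x)⁻¹ * w := rfl
  rw [h1]
  have h2 : (gen x)⁻¹ * w ∈ St (iv x) ↔ w ∉ St x := by
    have := gen_mul_mem (x := x) (u := (gen x)⁻¹ * w)
    rw [mul_inv_cancel_left] at this
    tauto
  have h3 := G.split σ x w
  by_cases hw : w ∈ St x
  · have h4 : (gen x)⁻¹ * w ∉ St (iv x) := by rw [h2]; simpa using hw
    rw [if_pos hw, if_neg h4]; ring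
  · have h4 : (gen x)⁻¹ * w ∈ St (iv x) := h2.mpr hw
    rw [if_neg hw, if_pos h4, ← mul_pow, ← mul_pow]
    rw [if_neg hw] at h3
    congr 1; linarith

theorem total_pos (σ : ℤˣ) : 0 < ∑' w, f σ w ^ 2 := by
  have h1 : f σ 1 ^ 2 ≤ ∑' w, f σ w ^ 2 := (G.sq σ).le_tsum 1 fun w _ => sq_nonneg _
  have h2 : 0 < f σ 1 ^ 2 := by
    have := G.g_ne σ
    positivity
  linarith

theorem c_ge (σ : ℤˣ) (x : L) : 0 ≤ 1 + 2 * f σ (gen x) := by
  have h1 := G.mass_in σ x
  have h2 := G.mass_out σ x
  have h3 := G.mass_half σ x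
  have h4 := G.mass_half (σ * chi (gen x)) x
  have h5 := G.total_pos (σ * chi (gen x))
  have h6 : 0 < f σ 1 ^ 2 := by
    have := G.g_ne σ
    positivity
  have h7 := mass_nonneg (f σ) (St x)
  set c := f σ (gen x)
  set P := mass (f σ) (St x)
  set A := ∑' w, f σ w ^ 2
  set P' := mass (f (σ * chi (gen x))) (St x)
  set A' := ∑' w, f (σ * chi (gen x)) w ^ 2
  have h8 : 0 < (1 + c) ^ 2 * P := by
    rw [h1]
    have : 0 < A' - P' := by linarith
    positivity
  have hP : 0 < P := by
    rcases h7.lt_or_eq with h | h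
    · exact h
    · rw [← h] at h8; simp at h8
  have h9 : c ^ 2 * P ≤ (1 + c) ^ 2 * P := by
    calc c ^ 2 * P ≤ c ^ 2 * (A - P) := by
          refine mul_le_mul_of_nonneg_left ?_ (sq_nonneg c); linarith
      _ = f σ 1 ^ 2 * P' := h2
      _ ≤ f σ 1 ^ 2 * (A' - P') := by
          refine mul_le_mul_of_nonneg_left ?_ h6.le; linarith
      _ = (1 + c) ^ 2 * P := h1.symm
  have h10 := le_of_mul_le_mul_right h9 hP
  nlinarith

theorem eq_one (σ : ℤˣ) : (lam - β * ((σ : ℤ) : ℝ)) * f σ 1
    = 1 + 2 * f σ (gen (0, true)) + 2 * f σ (gen (1, true)) := by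
  have h1 := G.eq σ 1
  unfold Lop pot at h1
  rw [dl_self] at h1
  simp only [one_mul, map_one, mul_one] at h1
  rw [Fintype.sum_prod_type] at h1
  simp only [Fin.sum_univ_two, Fintype.sum_bool] at h1
  have h2 := G.f_iv σ (0, true)
  have h3 := G.f_iv σ (1, true)
  simp only [iv, Bool.not_true] at h2 h3
  rw [h2, h3] at h1
  linarith

/-- The mixed sign case is impossible. -/
theorem sign_pos (hβ : 0 < β) (hβ' : β ≤ 1 / 4) : 0 < f 1 1 * f (-1) 1 := by
  have e1 := G.eq_one 1
  have e2 := G.eq_one (-1)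
  have p1 := G.prod_eq 1 (0, true)
  have p2 := G.prod_eq (-1) (0, true)
  have p3 := G.prod_eq 1 (1, true)
  have s1 := G.symm 1 (1, true)
  have c1 := G.c_ge 1 (0, true)
  have c2 := G.c_ge (-1) (0, true)
  have c3 := G.c_ge 1 (1, true)
  have n1 := G.g_ne 1
  have n2 := G.g_ne (-1)
  have x0 : chi (gen ((0 : Fin 2), true)) = 1 := by rw [chi_gen]; simp
  have x1 : chi (gen ((1 : Fin 2), true)) = -1 := by rw [chi_gen]; simp
  rw [x0, mul_one] at p1 p2
  rw [x1, one_mul] at p3 s1
  simp only [Units.val_one, Int.cast_one, mul_one, Units.val_neg, Int.cast_neg, mul_neg] at e1 e2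
  rw [s1] at e2
  set g := f 1 1
  set h := f (-1) 1
  set a := f 1 (gen (0, true))
  set b := f (-1) (gen (0, true))
  set c := f 1 (gen (1, true))
  have ha : 0 ≤ a := by nlinarith [sq_nonneg g]
  have hb : 0 ≤ b := by nlinarith [sq_nonneg h]
  by_contra hcon
  have hgh : g * h < 0 := lt_of_le_of_ne (not_lt.mp hcon) (mul_ne_zero n1 n2)
  -- `c` is negative
  rcases lt_or_gt_of_ne n1 with hg | hg
  · -- `g < 0 < h`
    have hh : 0 < h := by
      by_contra hh
      have : h ≤ 0 := not_lt.mp hh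
      nlinarith
    -- `2 β g h = (1 + 2b + 2c) g - (1 + 2a + 2c) h`
    have key : 2 * β * (g * h) = (1 + 2 * b + 2 * c) * g - (1 + 2 * a + 2 * c) * h := by
      have e3 : (lam - β) * g * h = (1 + 2 * a + 2 * c) * h := by rw [e1]
      have e4 : (lam + β) * h * g = (1 + 2 * b + 2 * c) * g := by
        have : (lam + β) * h = 1 + 2 * b + 2 * c := by linarith
        rw [this]
      linarith
    obtain ⟨q, hq⟩ : ∃ q, q = -g := ⟨_, rfl⟩
    have hg' : g = -q := by linarith
    have hq0 : 0 < q := by linarith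
    rw [hg'] at key p1 p3 hgh
    have hc0 : 0 ≤ (1 + 2 * c) := c3
    have k1 : (2 * a) * h ≤ (2 * β * q) * h := by
      have : 0 ≤ (1 + 2 * b + 2 * c) * q := mul_nonneg (by linarith) hq0.le
      have : 0 ≤ (1 + 2 * c) * h := mul_nonneg hc0 hh.le
      linarith
    have k2 : a ≤ β * q := by
      have := le_of_mul_le_mul_right k1 hh
      linarith
    have k3 : (2 * b) * q ≤ (2 * β * h) * q := by
      have : 0 ≤ (1 + 2 * a + 2 * c) * h := mul_nonneg (by linarith) hh.le
      have : 0 ≤ (1 + 2 * c) * q := mul_nonneg hc0 hq0.le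
      linarith
    have k4 : b ≤ β * h := by
      have := le_of_mul_le_mul_right k3 hq0
      linarith
    have aux : ∀ z d : ℝ, 0 < z → 0 ≤ d → d ≤ β * z → z * z = d * (1 + d) → z ≤ 4 / 15 := by
      intro z d hz hd hdz hzz
      have h1 : z * z ≤ (β * (1 + β * z)) * z := by
        rw [hzz]
        have : d * (1 + d) ≤ (β * z) * (1 + β * z) :=
          mul_le_mul hdz (by linarith) (by linarith) (by positivity)
        linarith
      have h2 : z ≤ β * (1 + β * z) := le_of_mul_le_mul_right h1 hz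
      have h3 : β * (1 + β * z) ≤ 1 / 4 * (1 + 1 / 4 * z) :=
        mul_le_mul hβ' (by nlinarith) (by positivity) (by norm_num)
      linarith
    have k5 : q ≤ 4 / 15 := aux q a hq0 ha k2 (by linarith)
    have k6 : h ≤ 4 / 15 := aux h b hh hb k4 (by linarith)
    have k8 : q * h ≤ 16 / 225 := by
      calc q * h ≤ 4 / 15 * (4 / 15) := mul_le_mul k5 k6 hh.le (by norm_num)
        _ = _ := by norm_num
    have k7 : 1 / 2 ≤ 1 + 2 * c := by
      by_contra hlt
      have hlt' := not_le.mp hlt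
      have h1 : (1 + 2 * c) * (1 + 2 * c) = 1 - 4 * (q * h) := by linarith
      have h2 : (1 + 2 * c) * (1 + 2 * c) ≤ 1 / 2 * (1 / 2) :=
        mul_le_mul hlt'.le hlt'.le hc0 (by norm_num)
      linarith
    have k9 : 1 / 2 * q ≤ (1 + 2 * b + 2 * c) * q :=
      mul_le_mul_of_nonneg_right (by linarith) hq0.le
    have k10 : 1 / 2 * h ≤ (1 + 2 * a + 2 * c) * h :=
      mul_le_mul_of_nonneg_right (by linarith) hh.le
    have k11 : 2 * β * (q * h) ≤ 2 * (1 / 4) * (4 / 15 * h) :=
      mul_le_mul (by linarith) (mul_le_mul_of_nonneg_right k5 hh.le) (by positivity) (by norm_num)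
    linarith
  · have hh : h < 0 := by
      by_contra hh
      have : 0 ≤ h := not_lt.mp hh
      nlinarith
    have key : 2 * β * (g * h) = (1 + 2 * b + 2 * c) * g - (1 + 2 * a + 2 * c) * h := by
      have e3 : (lam - β) * g * h = (1 + 2 * a + 2 * c) * h := by rw [e1]
      have e4 : (lam + β) * h * g = (1 + 2 * b + 2 * c) * g := by
        have : (lam + β) * h = 1 + 2 * b + 2 * c := by linarith
        rw [this]
      linarith
    have k1 : 0 ≤ (1 + 2 * b + 2 * c) * g := by
      have : 0 ≤ 1 + 2 * b + 2 * c := by linarith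
      positivity
    have k2 : 0 ≤ (1 + 2 * a + 2 * c) * (-h) := by
      have h1 : 0 ≤ 1 + 2 * a + 2 * c := by linarith
      have h2 : 0 ≤ -h := by linarith
      positivity
    nlinarith

theorem c_pos (hβ : 0 < β) (hβ' : β ≤ 1 / 4) (σ : ℤˣ) (x : L) : 0 < f σ (gen x) := by
  have h0 := G.sign_pos hβ hβ'
  have h1 := G.prod_eq σ x
  have h2 := G.c_ge σ x
  have h3 : 0 < f σ 1 * f (σ * chi (gen x)) 1 := by
    rcases Int.units_eq_one_or σ with rfl | rfl <;>
    rcases Int.units_eq_one_or (chi (gen x)) with h | h <;> rw [h]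
    · have := G.g_ne 1; simp only [mul_one]; exact mul_self_pos.mpr this
    · simpa using h0
    · have := G.g_ne (-1); simp only [mul_one]; exact mul_self_pos.mpr this
    · simp only [mul_neg, mul_one, neg_neg]; linarith
  nlinarith

/-- Signs of the Green function. -/
theorem signs (hβ : 0 < β) (hβ' : β ≤ 1 / 4) :
    (∀ σ w, 0 < f σ w) ∨ (∀ σ w, 0 < -(((par w : ℤˣ) : ℤ) : ℝ) * f σ w) := by
  have h0 := G.sign_pos hβ hβ'
  have step : ∀ σ (x : L) (u : F), u ∉ St (iv x) → (1 + f σ (gen x)) * f σ (gen x * u)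
      = f σ 1 * f (σ * chi (gen x)) u := by
    intro σ x u hu
    have h := G.split σ x (gen x * u)
    rw [if_pos (gen_mul_mem.mpr hu), inv_mul_cancel_left] at h
    linarith
  rcases lt_or_gt_of_ne (G.g_ne 1) with hg | hg
  · right
    have hh : f (-1) 1 < 0 := by
      by_contra hcon
      have := not_lt.mp hcon
      nlinarith
    have hall : ∀ σ, f σ 1 < 0 := by
      intro σ
      rcases Int.units_eq_one_or σ with rfl | rfl
      · exact hg
      · exact hh
    have main : ∀ n : ℕ, ∀ w : F, len w ≤ n → ∀ σ, 0 < -(((par w : ℤˣ) : ℤ) : ℝ) * f σ w := by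
      intro n
      induction n with
      | zero =>
        intro w hw σ
        have : w = 1 := FreeGroup.toWord_eq_nil_iff.mp (List.length_eq_zero_iff.mp
          (Nat.le_zero.mp hw))
        subst this
        have := hall σ
        simp; linarith
      | succ n ih =>
        intro w hw σ
        by_cases hw1 : w = 1
        · subst hw1
          have := hall σ
          simp; linarith
        · obtain ⟨x, hx⟩ := exists_St hw1
          obtain ⟨u, rfl, hu, hlen⟩ := exists_decomp hx
          have h1 := ih u (by omega) (σ * chi (gen x))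
          have h2 := step σ x u hu
          have h3 := G.c_pos hβ hβ' σ x
          have h4 := hall σ
          rw [map_mul, par_gen]
          simp only [neg_mul, one_mul, Units.val_neg, Int.cast_neg, neg_neg]
          simp only [neg_mul] at h1
          set p : ℝ := (((par u : ℤˣ) : ℤ) : ℝ)
          have h5 : (1 + f σ (gen x)) * (p * f σ (gen x * u))
              = (-f σ 1) * (-(p * f (σ * chi (gen x)) u)) := by
            calc _ = p * ((1 + f σ (gen x)) * f σ (gen x * u)) := by ring
              _ = _ := by rw [h2]; ring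
          have h6 : 0 < (1 + f σ (gen x)) * (p * f σ (gen x * u)) := by
            rw [h5]
            exact mul_pos (by linarith) h1
          exact (mul_pos_iff_of_pos_left (by linarith)).mp h6
    exact fun σ w => main _ w le_rfl σ
  · left
    have hh : 0 < f (-1) 1 := by
      by_contra hcon
      have := not_lt.mp hcon
      nlinarith
    have hall : ∀ σ, 0 < f σ 1 := by
      intro σ
      rcases Int.units_eq_one_or σ with rfl | rfl
      · exact hg
      · exact hh
    have main : ∀ n : ℕ, ∀ w : F, len w ≤ n → ∀ σ, 0 < f σ w := by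
      intro n
      induction n with
      | zero =>
        intro w hw σ
        have : w = 1 := FreeGroup.toWord_eq_nil_iff.mp (List.length_eq_zero_iff.mp
          (Nat.le_zero.mp hw))
        subst this
        exact hall σ
      | succ n ih =>
        intro w hw σ
        by_cases hw1 : w = 1
        · subst hw1; exact hall σ
        · obtain ⟨x, hx⟩ := exists_St hw1
          obtain ⟨u, rfl, hu, hlen⟩ := exists_decomp hx
          have h1 := ih u (by omega) (σ * chi (gen x))
          have h2 := step σ x u hu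
          have h3 := G.c_pos hβ hβ' σ x
          have h6 : 0 < (1 + f σ (gen x)) * f σ (gen x * u) := by
            rw [h2]
            exact mul_pos (hall σ) h1
          exact (mul_pos_iff_of_pos_left (by linarith)).mp h6
    exact fun σ w => main _ w le_rfl σ

/-- Existence of a positive supersolution for `± (λ - V)`. -/
theorem super (hβ : 0 < β) (hβ' : β ≤ 1 / 4) :
    ∃ κ : ℝ, (κ = 1 ∨ κ = -1) ∧ ∃ u : F → ℝ, (∀ w, 0 < u w) ∧
      ∀ w, ∑ y : L, u (w * gen y) ≤ κ * (lam - pot β 1 w) * u w := by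
  rcases G.signs hβ hβ' with h | h
  · refine ⟨1, Or.inl rfl, f 1, h 1, fun w => ?_⟩
    have h1 := G.eq 1 w
    unfold Lop at h1
    have h2 : 0 ≤ dl 1 w := by
      by_cases hw : w = 1
      · subst hw; rw [dl_self]; norm_num
      · rw [dl_ne hw]
    linarith
  · refine ⟨-1, Or.inr rfl, fun w => -(((par w : ℤˣ) : ℤ) : ℝ) * f 1 w, h 1, fun w => ?_⟩
    have h1 := G.eq 1 w
    unfold Lop at h1
    have h2 : ∀ y : L, -(((par (w * gen y) : ℤˣ) : ℤ) : ℝ) * f 1 (w * gen y)
        = (((par w : ℤˣ) : ℤ) : ℝ) * f 1 (w * gen y) := by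
      intro y
      rw [map_mul, par_gen]; simp
    simp only [h2, ← Finset.mul_sum]
    have h3 : ∑ y : L, f 1 (w * gen y) = (lam - pot β 1 w) * f 1 w - dl 1 w := by linarith
    rw [h3]
    by_cases hw : w = 1
    · subst hw; rw [dl_self]
      have : (((par 1 : ℤˣ) : ℤ) : ℝ) = 1 := by simp
      rw [this]; linarith
    · rw [dl_ne hw]
      refine le_of_eq ?_
      ring

end Green

/-- The Schur test on the tree. -/
theorem schur {m : F → ℝ} {u n : F → ℝ} (hu : ∀ w, 0 < u w)
    (hs : ∀ w, ∑ y : L, u (w * gen y) ≤ m w * u w) (hn : Sq n) (hn0 : ∀ w, 0 ≤ n w)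
    {M : ℝ} (hM : ∀ w, m w ≤ M) :
    (∑' w, ∑ y : L, n w * n (w * gen y)) ≤ ∑' w, m w * n w ^ 2 := by
  have hm : ∀ w, 0 < m w := by
    intro w
    have h1 : 0 < ∑ y : L, u (w * gen y) :=
      Finset.sum_pos (fun y _ => hu _) Finset.univ_nonempty
    exact (mul_pos_iff_of_pos_right (hu w)).mp (h1.trans_le (hs w))
  have hr : ∀ (y : L) w, u (w * gen y) / u w ≤ m w := by
    intro y w
    rw [div_le_iff₀ (hu w)]
    refine le_trans ?_ (hs w)
    exact Finset.single_le_sum (f := fun y : L => u (w * gen y)) (fun y _ => (hu _).le)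
      (Finset.mem_univ y)
  have hS1 : ∀ y : L, Summable fun w => n w ^ 2 * (u (w * gen y) / u w) := by
    intro y
    refine Summable.of_nonneg_of_le (fun w => ?_) (fun w => ?_) (hn.mul_right M)
    · have := hu w; have := hu (w * gen y); positivity
    · exact mul_le_mul_of_nonneg_left ((hr y w).trans (hM w)) (sq_nonneg _)
  have hS2 : ∀ y : L, Summable fun w => n (w * gen y) ^ 2 * (u w / u (w * gen y)) := by
    intro y
    have h1 := (Equiv.mulRight (gen y)).summable_iff.mpr (hS1 (iv y))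
    refine h1.congr fun w => ?_
    simp only [Function.comp, Equiv.coe_mulRight]
    rw [gen_iv, mul_inv_cancel_right]
  have hP : ∀ y : L, Summable fun w => n w * n (w * gen y) := by
    intro y
    refine Summable.of_nonneg_of_le (fun w => mul_nonneg (hn0 _) (hn0 _)) (fun w => ?_)
      (hn.add (hn.comp (Equiv.mulRight (gen y))))
    have h2 : (Equiv.mulRight (gen y)) w = w * gen y := rfl
    beta_reduce
    rw [h2]
    nlinarith [sq_nonneg (n w - n (w * gen y)), sq_nonneg (n w), sq_nonneg (n (w * gen y))]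
  have e1 : ∀ y : L, ∑' w, n w * n (w * gen y) ≤
      (1 / 2) * (∑' w, n w ^ 2 * (u (w * gen y) / u w))
        + (1 / 2) * (∑' w, n w ^ 2 * (u (w * gen (iv y)) / u w)) := by
    intro y
    have e2 : ∑' w, n w ^ 2 * (u (w * gen (iv y)) / u w)
        = ∑' w, n (w * gen y) ^ 2 * (u w / u (w * gen y)) := by
      rw [← (Equiv.mulRight (gen y)).tsum_eq]
      refine tsum_congr fun w => ?_
      simp only [Equiv.coe_mulRight]
      rw [gen_iv, mul_inv_cancel_right]
    rw [e2, ← tsum_mul_left, ← tsum_mul_left,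
      ← ((hS1 y).mul_left (1 / 2)).tsum_add ((hS2 y).mul_left (1 / 2))]
    refine Summable.tsum_le_tsum (fun w => ?_) (hP y)
      (((hS1 y).mul_left (1 / 2)).add ((hS2 y).mul_left (1 / 2)))
    have a1 := hu w
    have a2 := hu (w * gen y)
    have a3 : n w * n (w * gen y) * (u w * u (w * gen y))
        ≤ 1 / 2 * (n w ^ 2 * u (w * gen y) ^ 2) + 1 / 2 * (n (w * gen y) ^ 2 * u w ^ 2) := by
      nlinarith [sq_nonneg (n w * u (w * gen y) - n (w * gen y) * u w)]
    have a4 : 1 / 2 * (n w ^ 2 * (u (w * gen y) / u w))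
        + 1 / 2 * (n (w * gen y) ^ 2 * (u w / u (w * gen y)))
        = (1 / 2 * (n w ^ 2 * u (w * gen y) ^ 2) + 1 / 2 * (n (w * gen y) ^ 2 * u w ^ 2))
          / (u w * u (w * gen y)) := by
      field_simp
    rw [a4, le_div_iff₀ (by positivity)]
    exact a3
  have e3 : (∑' w, ∑ y : L, n w * n (w * gen y)) = ∑ y : L, ∑' w, n w * n (w * gen y) := by
    rw [Summable.tsum_finsetSum fun y _ => hP y]
  rw [e3]
  refine (Finset.sum_le_sum fun y _ => e1 y).trans ?_
  rw [Finset.sum_add_distrib, ← Finset.mul_sum, ← Finset.mul_sum]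
  have e4 : ∑ y : L, ∑' w, n w ^ 2 * (u (w * gen (iv y)) / u w)
      = ∑ y : L, ∑' w, n w ^ 2 * (u (w * gen y) / u w) := by
    let e : L ≃ L := ⟨iv, iv, iv_iv, iv_iv⟩
    exact e.sum_comp (fun y => ∑' w, n w ^ 2 * (u (w * gen y) / u w))
  rw [e4, ← Summable.tsum_finsetSum fun y _ => hS1 y]
  have e5 : (1 / 2 : ℝ) * (∑' w, ∑ y : L, n w ^ 2 * (u (w * gen y) / u w))
      + 1 / 2 * (∑' w, ∑ y : L, n w ^ 2 * (u (w * gen y) / u w))
      = ∑' w, ∑ y : L, n w ^ 2 * (u (w * gen y) / u w) := by ring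
  rw [e5]
  refine Summable.tsum_le_tsum (fun w => ?_) (summable_sum fun y _ => hS1 y) ?_
  · rw [← Finset.mul_sum, ← Finset.sum_div, mul_comm]
    refine mul_le_mul_of_nonneg_right ?_ (sq_nonneg _)
    rw [div_le_iff₀ (hu w)]
    exact hs w
  · refine Summable.of_nonneg_of_le (fun w => ?_) (fun w => ?_) (hn.mul_left M)
    · have := (hm w).le; positivity
    · exact mul_le_mul_of_nonneg_right (hM w) (sq_nonneg _)

end Pool.Agent.Helper73
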