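import Pool.Agent.Helper73.Core

set_option autoImplicit false

open scoped ENNReal ComplexConjugate

namespace Pool.Agent.Helper73

variable {V : Type}

/-- Complex square summable functions. -/
noncomputable abbrev E2 (V : Type) := lp (fun _ : V => ℂ) 2

theorem two_pos' : 0 < (2 : ℝ≥0∞).toReal := by norm_num

theorem E2.summable (f : E2 V) : Summable fun v => ‖f v‖ ^ 2 := by
  have := (lp.memℓp f).summable two_pos'
  simpa using this

theorem E2.norm_sq (f : E2 V) : ‖f‖ ^ 2 = ∑' v, ‖f v‖ ^ 2 := by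
  have := lp.norm_rpow_eq_tsum two_pos' f
  simpa using this

theorem memE2 {f : V → ℂ} (hf : Summable fun v => ‖f v‖ ^ 2) : Memℓp f 2 := by
  refine memℓp_gen ?_
  simpa using hf

/-- Build an element of `E2`. -/
def mkE2 (f : V → ℂ) (hf : Summable fun v => ‖f v‖ ^ 2) : E2 V := ⟨f, memE2 hf⟩

@[simp] theorem mkE2_apply (f : V → ℂ) (hf : Summable fun v => ‖f v‖ ^ 2) (v : V) :
    mkE2 f hf v = f v := rfl

theorem E2.ext' {f g : E2 V} (h : ∀ v, f v = g v) : f = g := lp.ext (funext h)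

/-- Translation by a permutation. -/
noncomputable def trl (p : V ≃ V) : E2 V →L[ℂ] E2 V :=
  LinearMap.mkContinuous
    { toFun := fun f => mkE2 (fun v => f (p v)) ((p.summable_iff (f := fun v => ‖f v‖ ^ 2)).mpr
        (E2.summable f))
      map_add' := fun f g => E2.ext' fun v => by simp
      map_smul' := fun c f => E2.ext' fun v => by simp }
    1 (fun f => by
      have h1 := E2.norm_sq (mkE2 (fun v => f (p v))
        ((p.summable_iff (f := fun v => ‖f v‖ ^ 2)).mpr (E2.summable f)))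
      have h2 := E2.norm_sq f
      have h3 : ∑' v, ‖(mkE2 (fun v => f (p v))
        ((p.summable_iff (f := fun v => ‖f v‖ ^ 2)).mpr (E2.summable f))) v‖ ^ 2
          = ∑' v, ‖f v‖ ^ 2 := p.tsum_eq (fun v => ‖f v‖ ^ 2)
      rw [h3, ← h2] at h1
      have h4 := (sq_eq_sq₀ (norm_nonneg _) (norm_nonneg _)).mp h1
      rw [one_mul]
      exact h4.le)

@[simp] theorem trl_apply (p : V ≃ V) (f : E2 V) (v : V) : trl p f v = f (p v) := rfl

/-- Multiplication by a bounded real function. -/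
noncomputable def mlt (b : V → ℝ) (C : ℝ) (hC : ∀ v, |b v| ≤ C) (hC0 : 0 ≤ C) :
    E2 V →L[ℂ] E2 V :=
  have key : ∀ f : E2 V, Summable fun v => ‖(b v : ℂ) * f v‖ ^ 2 := fun f => by
    refine Summable.of_nonneg_of_le (fun v => sq_nonneg _) (fun v => ?_)
      ((E2.summable f).mul_left (C ^ 2))
    rw [norm_mul, mul_pow, Complex.norm_real, Real.norm_eq_abs]
    exact mul_le_mul_of_nonneg_right (pow_le_pow_left₀ (abs_nonneg _) (hC v) 2) (sq_nonneg _)
  LinearMap.mkContinuous
    { toFun := fun f => mkE2 (fun v => (b v : ℂ) * f v) (key f)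
      map_add' := fun f g => E2.ext' fun v => by simp [mul_add]
      map_smul' := fun c f => E2.ext' fun v => by simp; ring }
    C (fun f => by
      have h1 := E2.norm_sq (mkE2 (fun v => (b v : ℂ) * f v) (key f))
      have h2 := E2.norm_sq f
      have h3 : ∑' v, ‖(mkE2 (fun v => (b v : ℂ) * f v) (key f)) v‖ ^ 2
          ≤ ∑' v, C ^ 2 * ‖f v‖ ^ 2 := by
        refine Summable.tsum_le_tsum (fun v => ?_) (key f) ((E2.summable f).mul_left (C ^ 2))
        simp only [mkE2_apply]
        rw [norm_mul, mul_pow, Complex.norm_real, Real.norm_eq_abs]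
        exact mul_le_mul_of_nonneg_right (pow_le_pow_left₀ (abs_nonneg _) (hC v) 2) (sq_nonneg _)
      rw [tsum_mul_left, ← h2, ← h1, ← mul_pow] at h3
      exact (sq_le_sq₀ (norm_nonneg _) (by positivity)).mp h3)

@[simp] theorem mlt_apply (b : V → ℝ) (C : ℝ) (hC : ∀ v, |b v| ≤ C) (hC0 : 0 ≤ C) (f : E2 V)
    (v : V) : mlt b C hC hC0 f v = (b v : ℂ) * f v := rfl

/-- Right translation by a letter, on `V`. -/
def nb (e : V ≃ F) (y : L) : V ≃ V := (e.trans (Equiv.mulRight (gen y))).trans e.symm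

theorem nb_apply (e : V ≃ F) (y : L) (v : V) : nb e y v = e.symm (e v * gen y) := rfl

theorem e_nb (e : V ≃ F) (y : L) (v : V) : e (nb e y v) = e v * gen y := by
  simp [nb_apply]

theorem nb_symm (e : V ≃ F) (y : L) (v : V) : (nb e y).symm v = nb e (iv y) v := by
  rw [Equiv.symm_apply_eq, nb_apply, nb_apply, gen_iv]
  simp

/-- `H` is the operator `A + β χ` on the tree. -/
def IsH (e : V ≃ F) (β : ℝ) (H : E2 V →L[ℂ] E2 V) : Prop :=
  ∀ (f : E2 V) (v : V), H f v = (∑ y : L, f (nb e y v)) + (pot β 1 (e v) : ℂ) * f v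

theorem pot_abs (β : ℝ) (σ : ℤˣ) (w : F) : |pot β σ w| = |β| := by
  unfold pot
  rcases Int.units_eq_one_or (σ * chi w) with h | h <;> rw [h] <;> simp

theorem exists_IsH (e : V ≃ F) (β : ℝ) : ∃ H : E2 V →L[ℂ] E2 V, IsH e β H := by
  refine ⟨(∑ y : L, trl (nb e y)) + mlt (fun v => pot β 1 (e v)) |β|
    (fun v => (pot_abs _ _ _).le) (abs_nonneg _), fun f v => ?_⟩
  rw [add_apply, lp.coeFn_add, Pi.add_apply, mlt_apply]
  congr 1

section main

variable {e : V ≃ F} {β : ℝ} {H : E2 V →L[ℂ] E2 V} (hH : IsH e β H)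
include hH

theorem inner_H (x z : E2 V) : inner ℂ (H x) z
    = (∑ y : L, ∑' v, inner ℂ (x (nb e y v)) (z v)) + ∑' v, (pot β 1 (e v) : ℂ) *
      inner ℂ (x v) (z v) := by
  have h1 : inner ℂ (H x) z = ∑' v, inner ℂ (H x v) (z v) := lp.inner_eq_tsum _ _
  rw [h1]
  have h2 : ∀ v, inner ℂ (H x v) (z v) = (∑ y : L, inner ℂ (x (nb e y v)) (z v))
      + (pot β 1 (e v) : ℂ) * inner ℂ (x v) (z v) := by
    intro v
    rw [hH x v, inner_add_left, sum_inner, ← smul_eq_mul (pot β 1 (e v) : ℂ) (x v), inner_smul_left]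
    congr 2
    simp
  simp only [h2]
  have hs : ∀ y : L, Summable fun v => inner ℂ (x (nb e y v)) (z v) := fun y =>
    lp.summable_inner (trl (nb e y) x) z
  have hb : Summable fun v => (pot β 1 (e v) : ℂ) * inner ℂ (x v) (z v) := by
    have := lp.summable_inner (𝕜 := ℂ) (mlt (fun v => pot β 1 (e v)) |β|
      (fun v => (pot_abs _ _ _).le) (abs_nonneg _) x) z
    refine this.congr fun v => ?_
    rw [mlt_apply, ← smul_eq_mul (pot β 1 (e v) : ℂ) (x v), inner_smul_left]
    simp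
  rw [Summable.tsum_add (summable_sum fun y _ => hs y) hb, Summable.tsum_finsetSum fun y _ => hs y]

theorem inner_H' (x z : E2 V) : inner ℂ x (H z)
    = (∑ y : L, ∑' v, inner ℂ (x v) (z (nb e y v))) + ∑' v, (pot β 1 (e v) : ℂ) *
      inner ℂ (x v) (z v) := by
  have h1 : inner ℂ x (H z) = ∑' v, inner ℂ (x v) (H z v) := lp.inner_eq_tsum _ _
  rw [h1]
  have h2 : ∀ v, inner ℂ (x v) (H z v) = (∑ y : L, inner ℂ (x v) (z (nb e y v)))
      + (pot β 1 (e v) : ℂ) * inner ℂ (x v) (z v) := by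
    intro v
    rw [hH z v, inner_add_right, inner_sum, ← smul_eq_mul (pot β 1 (e v) : ℂ) (z v),
      inner_smul_right]
  simp only [h2]
  have hs : ∀ y : L, Summable fun v => inner ℂ (x v) (z (nb e y v)) := fun y =>
    lp.summable_inner x (trl (nb e y) z)
  have hb : Summable fun v => (pot β 1 (e v) : ℂ) * inner ℂ (x v) (z v) := by
    have := lp.summable_inner (𝕜 := ℂ) x (mlt (fun v => pot β 1 (e v)) |β|
      (fun v => (pot_abs _ _ _).le) (abs_nonneg _) z)
    refine this.congr fun v => ?_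
    rw [mlt_apply, ← smul_eq_mul (pot β 1 (e v) : ℂ) (z v), inner_smul_right]
  rw [Summable.tsum_add (summable_sum fun y _ => hs y) hb, Summable.tsum_finsetSum fun y _ => hs y]

theorem H_symm (x z : E2 V) : inner ℂ (H x) z = inner ℂ x (H z) := by
  rw [inner_H hH, inner_H' hH]
  congr 1
  have h1 : ∀ y : L, ∑' v, inner ℂ (x (nb e y v)) (z v)
      = ∑' v, inner ℂ (x v) (z (nb e (iv y) v)) := by
    intro y
    rw [← (nb e y).tsum_eq (fun v => inner ℂ (x v) (z (nb e (iv y) v)))]
    refine tsum_congr fun v => ?_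
    have : nb e (iv y) (nb e y v) = v := by
      rw [← nb_symm]; simp
    rw [this]
  simp only [h1]
  let q : L ≃ L := ⟨iv, iv, iv_iv, iv_iv⟩
  exact q.sum_comp (fun y => ∑' v, inner ℂ (x v) (z (nb e y v)))

theorem H_sa : IsSelfAdjoint H := by
  rw [ContinuousLinearMap.isSelfAdjoint_iff_isSymmetric]
  exact H_symm hH

omit hH in
/-- An element with prescribed sign. -/
def aa (σ : ℤˣ) : F := if σ = 1 then 1 else gen (1, true)

omit hH in
theorem chi_aa (σ : ℤˣ) : chi (aa σ) = σ := by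
  unfold aa
  split_ifs with h
  · rw [map_one, h]
  · rw [chi_gen]
    rcases Int.units_eq_one_or σ with h' | h'
    · exact absurd h' h
    · simp [h']

omit hH in
theorem pot_aa (σ : ℤˣ) (w : F) : pot β 1 (aa σ * w) = pot β σ w := by
  unfold pot
  rw [map_mul, chi_aa, one_mul]

/-- Pointwise form of `λ - H`. -/
theorem lamH_apply (lam : ℝ) (f : E2 V) (v : V) :
    (algebraMap ℂ (E2 V →L[ℂ] E2 V) (lam : ℂ) - H) f v
      = ((lam - pot β 1 (e v) : ℝ) : ℂ) * f v - ∑ y : L, f (nb e y v) := by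
  have h1 : (algebraMap ℂ (E2 V →L[ℂ] E2 V) (lam : ℂ) - H) f = (lam : ℂ) • f - H f := by
    rw [sub_apply, Algebra.algebraMap_eq_smul_one]; rfl
  rw [h1, lp.coeFn_sub, Pi.sub_apply, lp.coeFn_smul, Pi.smul_apply, hH f v, smul_eq_mul]
  push_cast
  ring

/-- Outside the spectrum one gets the Green data. -/
theorem exists_green {lam : ℝ} (hlam : (lam : ℂ) ∉ spectrum ℂ H) :
    ∃ f : ℤˣ → F → ℝ, Green β lam f := by
  classical
  rw [spectrum.notMem_iff] at hlam
  rw [ContinuousLinearMap.isUnit_iff_bijective] at hlam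
  obtain ⟨hinj, hsurj⟩ := hlam
  choose φ hφ using fun a : V => hsurj (lp.single 2 a (1 : ℂ))
  refine ⟨fun σ w => (φ (e.symm (aa σ)) (e.symm (aa σ * w))).re, ⟨fun σ => ?_, fun σ w => ?_,
    fun σ g hg h0 => ?_⟩⟩
  · have h1 := E2.summable (φ (e.symm (aa σ)))
    have h2 := (((Equiv.mulLeft (aa σ)).trans e.symm).summable_iff
      (f := fun v => ‖φ (e.symm (aa σ)) v‖ ^ 2)).mpr h1
    refine Summable.of_nonneg_of_le (fun w => sq_nonneg _) (fun w => ?_) h2
    simp only [Function.comp, Equiv.trans_apply, Equiv.coe_mulLeft]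
    rw [← sq_abs]
    exact pow_le_pow_left₀ (abs_nonneg _) (Complex.abs_re_le_norm _) 2
  · have h1 := congrArg (fun z : E2 V => (z (e.symm (aa σ * w))).re) (hφ (e.symm (aa σ)))
    simp only at h1
    rw [lamH_apply hH] at h1
    simp only [Complex.sub_re, Complex.re_ofReal_mul, Complex.re_sum, Equiv.apply_symm_apply,
      nb_apply, pot_aa] at h1
    unfold Lop
    simp only [← mul_assoc]
    rw [h1, lp.single_apply]
    by_cases hw : w = 1
    · subst hw; rw [dl_self]; simp
    · rw [dl_ne hw]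
      have : e.symm (aa σ * w) ≠ e.symm (aa σ) := by
        intro hh
        have := e.symm.injective hh
        exact hw (by simpa using this)
      simp [this]
  · set ψ : E2 V := mkE2 (fun v => ((g ((aa σ)⁻¹ * e v) : ℝ) : ℂ)) (by
      have h2 := ((e.trans (Equiv.mulLeft (aa σ)⁻¹)).summable_iff
        (f := fun w => g w ^ 2)).mpr hg
      refine h2.congr fun v => ?_
      simp [Complex.norm_real]) with hψ
    have h1 : (algebraMap ℂ (E2 V →L[ℂ] E2 V) (lam : ℂ) - H) ψ = 0 := by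
      refine E2.ext' fun v => ?_
      rw [lamH_apply hH]
      have h2 := h0 ((aa σ)⁻¹ * e v)
      unfold Lop at h2
      rw [← pot_aa, mul_inv_cancel_left] at h2
      rw [hψ]
      simp only [mkE2_apply, e_nb]
      have h3 := congrArg (fun r : ℝ => (r : ℂ)) h2
      simp only [← mul_assoc] 
      push_cast at h3 ⊢
      simpa [mul_assoc] using h3
    have h2 : ψ = 0 := hinj (by rw [h1, map_zero])
    intro w
    have h3 : ψ (e.symm (aa σ * w)) = 0 := by rw [h2]; rfl
    rw [hψ] at h3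
    simpa using h3

/-- The quadratic form bound coming from the Schur test. -/
theorem form_bound (hβ : 0 < β) {lam κ : ℝ} (hκ : κ = 1 ∨ κ = -1) {u : F → ℝ}
    (hu : ∀ w, 0 < u w)
    (hs : ∀ w, ∑ y : L, u (w * gen y) ≤ κ * (lam - pot β 1 w) * u w) (x : E2 V) :
    0 ≤ κ * (lam * ‖x‖ ^ 2 - (inner ℂ x (H x)).re) := by
  have hκa : |κ| = 1 := by rcases hκ with h | h <;> rw [h] <;> simp
  set n : F → ℝ := fun w => ‖x (e.symm w)‖ with hn
  have hnS : Sq n := (e.symm.summable_iff (f := fun v => ‖x v‖ ^ 2)).mpr (E2.summable x)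
  have hsch := schur (M := |lam| + |β|) hu hs hnS (fun w => norm_nonneg _) (fun w => by
    have h1 := pot_abs β 1 w
    calc κ * (lam - pot β 1 w) ≤ |κ * (lam - pot β 1 w)| := le_abs_self _
      _ = |lam - pot β 1 w| := by rw [abs_mul, hκa, one_mul]
      _ ≤ |lam| + |pot β 1 w| := abs_sub _ _
      _ = _ := by rw [h1])
  -- transport sums from `F` to `V`
  have t1 : ∑' w, n w ^ 2 = ‖x‖ ^ 2 := by
    rw [E2.norm_sq, ← e.symm.tsum_eq]
  have t2 : (inner ℂ x (H x)).re = (∑ y : L, ∑' w, (inner ℂ (x (e.symm w))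
      (x (e.symm (w * gen y)))).re) + ∑' w, pot β 1 w * n w ^ 2 := by
    rw [inner_H' hH, Complex.add_re, Complex.re_sum]
    congr 1
    · refine Finset.sum_congr rfl fun y _ => ?_
      have hss : Summable fun v => inner ℂ (x v) (x (nb e y v)) :=
        lp.summable_inner x (trl (nb e y) x)
      rw [Complex.re_tsum hss, ← e.symm.tsum_eq]
      refine tsum_congr fun w => ?_
      rw [nb_apply, Equiv.apply_symm_apply]
    · rw [Complex.re_tsum, ← e.symm.tsum_eq]
      · refine tsum_congr fun w => ?_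
        rw [Equiv.apply_symm_apply, Complex.re_ofReal_mul, inner_self_eq_norm_sq_to_K]
        congr 1
        rw [hn]
        norm_cast
      · have := lp.summable_inner (𝕜 := ℂ) x (mlt (fun v => pot β 1 (e v)) |β|
          (fun v => (pot_abs _ _ _).le) (abs_nonneg _) x)
        refine this.congr fun v => ?_
        rw [mlt_apply, ← smul_eq_mul (pot β 1 (e v) : ℂ) (x v), inner_smul_right]
  have hin : ∀ (y : L) (w : F), |(inner ℂ (x (e.symm w)) (x (e.symm (w * gen y)))).re|
      ≤ n w * n (w * gen y) := by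
    intro y w
    exact (Complex.abs_re_le_norm _).trans (norm_inner_le_norm _ _)
  have hP : ∀ y : L, Summable fun w => n w * n (w * gen y) := by
    intro y
    refine Summable.of_nonneg_of_le (fun w => mul_nonneg (norm_nonneg _) (norm_nonneg _))
      (fun w => ?_) (hnS.add (hnS.comp (Equiv.mulRight (gen y))))
    have h2 : (Equiv.mulRight (gen y)) w = w * gen y := rfl
    beta_reduce
    rw [h2]
    nlinarith [sq_nonneg (n w - n (w * gen y)), sq_nonneg (n w), sq_nonneg (n (w * gen y))]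
  have hin2 : ∀ y : L, |∑' w, (inner ℂ (x (e.symm w)) (x (e.symm (w * gen y)))).re|
      ≤ ∑' w, n w * n (w * gen y) := by
    intro y
    have hsum : Summable fun w => |(inner ℂ (x (e.symm w)) (x (e.symm (w * gen y)))).re| :=
      Summable.of_nonneg_of_le (fun w => abs_nonneg _) (hin y) (hP y)
    have h1 : |∑' w, (inner ℂ (x (e.symm w)) (x (e.symm (w * gen y)))).re|
        ≤ ∑' w, |(inner ℂ (x (e.symm w)) (x (e.symm (w * gen y)))).re| := by
      simpa [Real.norm_eq_abs] using norm_tsum_le_tsum_norm (f := fun w =>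
        (inner ℂ (x (e.symm w)) (x (e.symm (w * gen y)))).re) (by simpa using hsum)
    exact h1.trans (Summable.tsum_le_tsum (hin y) hsum (hP y))
  have hpotS : Summable fun w => pot β 1 w * n w ^ 2 := by
    refine Summable.of_norm_bounded (g := fun w => |β| * n w ^ 2) (hnS.mul_left _) fun w => ?_
    rw [Real.norm_eq_abs, abs_mul, pot_abs, abs_of_nonneg (sq_nonneg (n w))]
  have t3 : ∑' w, κ * (lam - pot β 1 w) * n w ^ 2
      = κ * (lam * ‖x‖ ^ 2 - ∑' w, pot β 1 w * n w ^ 2) := by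
    rw [← t1, ← tsum_mul_left, ← (hnS.mul_left lam).tsum_sub hpotS, ← tsum_mul_left]
    refine tsum_congr fun w => ?_
    ring
  have t4 : (∑' w, ∑ y : L, n w * n (w * gen y)) = ∑ y : L, ∑' w, n w * n (w * gen y) := by
    rw [Summable.tsum_finsetSum fun y _ => hP y]
  rw [t3, t4] at hsch
  rw [t2]
  have h5 : κ * (∑ y : L, ∑' w, (inner ℂ (x (e.symm w)) (x (e.symm (w * gen y)))).re)
      ≤ ∑ y : L, ∑' w, n w * n (w * gen y) := by
    refine (le_abs_self _).trans ?_
    rw [abs_mul, hκa, one_mul]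
    exact (Finset.abs_sum_le_sum_abs _ _).trans (Finset.sum_le_sum fun y _ => hin2 y)
  linarith

/-- Real points beyond `λ` in the direction `κ` are not in the spectrum. -/
theorem notMem_of_bound {lam κ mu : ℝ} (hκ : κ = 1 ∨ κ = -1)
    (hb : ∀ x : E2 V, 0 ≤ κ * (lam * ‖x‖ ^ 2 - (inner ℂ x (H x)).re))
    (hmu : 0 < κ * (mu - lam)) : (mu : ℂ) ∉ spectrum ℂ H := by
  rw [spectrum.notMem_iff]
  refine ContinuousLinearMap.isUnit_of_forall_le_norm_inner_map _
    (c := ⟨κ * (mu - lam), hmu.le⟩) hmu fun x => ?_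
  have h1 : (algebraMap ℂ (E2 V →L[ℂ] E2 V) (mu : ℂ) - H) x = (mu : ℂ) • x - H x := by
    rw [sub_apply, Algebra.algebraMap_eq_smul_one]; rfl
  rw [h1, inner_sub_left, inner_smul_left, H_symm hH]
  have h2 : (inner ℂ x x : ℂ) = ((‖x‖ ^ 2 : ℝ) : ℂ) := by
    rw [inner_self_eq_norm_sq_to_K]; norm_cast
  have hκa : |κ| = 1 := by rcases hκ with h | h <;> rw [h] <;> simp
  have h3 : |((starRingEnd ℂ) (mu : ℂ) * inner ℂ x x - inner ℂ x (H x)).re|
      ≤ ‖(starRingEnd ℂ) (mu : ℂ) * inner ℂ x x - inner ℂ x (H x)‖ := Complex.abs_re_le_norm _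
  refine le_trans ?_ h3
  rw [h2, Complex.conj_ofReal, ← Complex.ofReal_mul, Complex.sub_re, Complex.ofReal_re]
  have h4 := hb x
  have h5 : κ * (mu * ‖x‖ ^ 2 - (inner ℂ x (H x)).re) ≤ |mu * ‖x‖ ^ 2 - (inner ℂ x (H x)).re| := by
    refine (le_abs_self _).trans ?_
    rw [abs_mul, hκa, one_mul]
  refine le_trans ?_ h5
  change ‖x‖ ^ 2 * (κ * (mu - lam)) ≤ _
  nlinarith

/-- The real spectrum is order connected. -/
theorem ordConnected (hβ : 0 < β) (hβ' : β ≤ 1 / 4) :
    Set.OrdConnected {x : ℝ | (x : ℂ) ∈ spectrum ℂ H} := by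
  refine ⟨fun a ha b hb lam hlam => ?_⟩
  by_contra hcon
  have hcon' : (lam : ℂ) ∉ spectrum ℂ H := hcon
  obtain ⟨f, G⟩ := exists_green hH hcon'
  obtain ⟨κ, hκ, u, hu, hs⟩ := G.super hβ hβ'
  have hfb := form_bound hH hβ hκ hu hs
  have h1 : a ≠ lam := by rintro rfl; exact hcon ha
  have h2 : b ≠ lam := by rintro rfl; exact hcon hb
  have h3 : a < lam := lt_of_le_of_ne hlam.1 h1
  have h4 : lam < b := lt_of_le_of_ne hlam.2 h2.symm
  rcases hκ with rfl | rfl
  · exact notMem_of_bound hH (Or.inl rfl) hfb (by linarith : 0 < 1 * (b - lam)) hb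
  · exact notMem_of_bound hH (Or.inr rfl) hfb (by linarith : 0 < -1 * (a - lam)) ha

/-- The spectrum is connected. -/
theorem preconnected (hβ : 0 < β) (hβ' : β ≤ 1 / 4) : IsPreconnected (spectrum ℂ H) := by
  have h1 : spectrum ℂ H = Complex.ofReal '' {x : ℝ | (x : ℂ) ∈ spectrum ℂ H} := by
    ext z
    constructor
    · intro hz
      have h2 := (H_sa hH).mem_spectrum_eq_re hz
      exact ⟨z.re, by rw [Set.mem_ofPred_eq, ← h2]; exact hz, h2.symm⟩
    · rintro ⟨x, hx, rfl⟩
      exact hx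
  rw [h1]
  exact ((ordConnected hH hβ hβ').isPreconnected).image _ Complex.continuous_ofReal.continuousOn

end main

end Pool.Agent.Helper73
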