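import Pool.Agent.Helper73.Cayley

set_option autoImplicit false

namespace Pool.Agent.Helper73

/-- Darts of the two-vertex graph with one loop at each vertex and two edges between. -/
abbrev DD := ℤˣ × L

def srcD (d : DD) : ℤˣ := d.1

def revD (d : DD) : DD := (d.1 * chi (gen d.2), iv d.2)

theorem chi_sq (x : F) : chi x * chi x = 1 := Int.units_mul_self _

theorem chi_iv (x : L) : chi (gen (iv x)) = chi (gen x) := by
  rw [gen_iv, map_inv, Int.units_inv_eq_self]

theorem revD_revD (d : DD) : revD (revD d) = d := by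
  obtain ⟨t, x⟩ := d
  simp only [revD, iv_iv, chi_iv, mul_assoc, chi_sq, mul_one]

theorem revD_ne (d : DD) : revD d ≠ d := by
  intro h
  exact iv_ne d.2 (congrArg Prod.snd h)

/-- Walk condition between consecutive darts. -/
def Rd (d e : DD) : Prop := srcD e = srcD (revD d) ∧ e ≠ revD d

theorem chain_iff {α : Type} (R : α → α → Prop) (l : List α) :
    (∀ (i : ℕ) (d e : α), l[i]? = some d → l[i+1]? = some e → R d e) ↔ l.IsChain R := by
  induction l with
  | nil => simp
  | cons a l ih =>
    cases l with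
    | nil => simp
    | cons b l =>
      rw [List.isChain_cons_cons, ← ih]
      constructor
      · intro h
        refine ⟨h 0 a b (by simp) (by simp), fun i d e h1 h2 => h (i + 1) d e (by simpa using h1)
          (by simpa using h2)⟩
      · rintro ⟨h1, h2⟩ i d e h3 h4
        cases i with
        | zero =>
          simp at h3 h4
          subst h3 h4
          exact h1
        | succ i => exact h2 i d e (by simpa using h3) (by simpa using h4)

/-- Typing a word. -/
def typ : ℤˣ → List L → List DD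
  | _, [] => []
  | t, x :: l => (t, x) :: typ (t * chi (gen x)) l

@[simp] theorem typ_map (t : ℤˣ) (l : List L) : (typ t l).map Prod.snd = l := by
  induction l generalizing t with
  | nil => rfl
  | cons x l ih => simp [typ, ih]

theorem mk_cons (x : L) (l : List L) : (FreeGroup.mk (x :: l) : F) = gen x * FreeGroup.mk l := by
  rw [gen, FreeGroup.mul_mk]; rfl

theorem typ_append (t : ℤˣ) (l : List L) (z : L) :
    typ t (l ++ [z]) = typ t l ++ [(t * chi (FreeGroup.mk l), z)] := by
  induction l generalizing t with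
  | nil =>
    have : (FreeGroup.mk [] : F) = 1 := rfl
    simp [typ, this]
  | cons x l ih =>
    simp only [List.cons_append, typ, ih, mk_cons, map_mul, mul_assoc]

theorem red_iff (x y : L) : (x.1 = y.1 → x.2 = y.2) ↔ y ≠ iv x := by
  constructor
  · rintro h rfl
    have := h rfl
    simp [iv] at this
  · intro h h1
    by_contra h2
    apply h
    ext
    · simp [iv, h1]
    · simp only [iv]
      cases hx : x.2 <;> cases hy : y.2 <;> simp_all

theorem ok_iff (t : ℤˣ) (l : List DD) :
    ((∀ d ∈ l.head?, srcD d = t) ∧ l.IsChain Rd) ↔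
      (l = typ t (l.map Prod.snd) ∧ FreeGroup.IsReduced (l.map Prod.snd)) := by
  induction l generalizing t with
  | nil => simp [typ]
  | cons a l ih =>
    cases l with
    | nil =>
      simp only [List.head?_cons, Option.mem_some_iff, forall_eq', List.isChain_singleton,
        and_true, List.map_cons, List.map_nil, typ]
      obtain ⟨s, x⟩ := a
      simp [srcD]
    | cons b l =>
      rw [List.isChain_cons_cons]
      simp only [List.map_cons]
      rw [FreeGroup.isReduced_cons_cons]
      have ih' := ih (t * chi (gen a.2))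
      simp only [List.head?_cons, Option.mem_some_iff, forall_eq', List.map_cons] at ih' ⊢
      obtain ⟨s, x⟩ := a
      obtain ⟨s', x'⟩ := b
      rw [red_iff]
      simp only [srcD, Rd, revD, typ, List.cons.injEq, Prod.mk.injEq, and_true, ne_eq,
        not_and] at ih' ⊢
      constructor
      · rintro ⟨rfl, ⟨h2, h3⟩, h4⟩
        obtain ⟨h5, h6⟩ := ih'.mp ⟨h2, h4⟩
        exact ⟨⟨rfl, h5⟩, h3 h2, h6⟩
      · rintro ⟨⟨rfl, h5⟩, h3, h6⟩
        obtain ⟨h2, h4⟩ := ih'.mpr ⟨h5, h6⟩
        exact ⟨rfl, ⟨h2, fun _ => h3⟩, h4⟩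

/-- The set of non-backtracking walks from the base vertex. -/
def SS : Set (List DD) := {l | (∀ d ∈ l.head?, srcD d = 1) ∧
  ∀ (i : ℕ) (d e : DD), l[i]? = some d → l[i+1]? = some e → (srcD e = srcD (revD d) ∧ e ≠ revD d)}

theorem mem_SS (l : List DD) :
    l ∈ SS ↔ (l = typ 1 (l.map Prod.snd) ∧ FreeGroup.IsReduced (l.map Prod.snd)) := by
  rw [← ok_iff, ← chain_iff]
  exact Iff.rfl

/-- Walks correspond to group elements. -/
def eS : SS ≃ F where
  toFun x := FreeGroup.mk (x.1.map Prod.snd)
  invFun w := ⟨typ 1 w.toWord, by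
    rw [mem_SS]
    simp [FreeGroup.isReduced_toWord]⟩
  left_inv x := by
    ext1
    have h := (mem_SS x.1).mp x.2
    simp only [FreeGroup.toWord_mk]
    rw [h.2.reduce_eq]
    exact h.1.symm
  right_inv w := by
    simp only [typ_map]
    exact FreeGroup.mk_toWord

theorem eS_apply (x : SS) : eS x = FreeGroup.mk (x.1.map Prod.snd) := rfl

theorem eS_symm (w : F) : (eS.symm w).1 = typ 1 w.toWord := rfl

theorem toWord_eS (x : SS) : (eS x).toWord = x.1.map Prod.snd := by
  rw [eS_apply, FreeGroup.toWord_mk, ((mem_SS x.1).mp x.2).2.reduce_eq]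

theorem toWord_mul_gen {w : F} {z : L} (h : w⁻¹ ∉ St z) :
    (w * gen z).toWord = w.toWord ++ [z] := by
  have h1 : (gen (iv z) * w⁻¹).toWord = iv z :: (w⁻¹).toWord :=
    toWord_of_notMem (by rwa [iv_iv])
  have h2 : w * gen z = (gen (iv z) * w⁻¹)⁻¹ := by
    rw [mul_inv_rev, gen_iv, inv_inv, inv_inv]
  rw [h2, FreeGroup.toWord_inv, h1]
  rw [FreeGroup.toWord_inv]
  have h3 : FreeGroup.invRev (iv z :: FreeGroup.invRev w.toWord)
      = FreeGroup.invRev (FreeGroup.invRev w.toWord) ++ FreeGroup.invRev [iv z] :=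
    FreeGroup.invRev_cons
  rw [h3, FreeGroup.invRev_invRev]
  simp [FreeGroup.invRev, iv]

/-- Neighbours in the walk model. -/
theorem walk_adj (x y : SS) (d : DD) :
    (y.1 = x.1 ++ [d] ∨ x.1 = y.1 ++ [d]) →
      ∃ z, y = nb eS z x := by
  rintro (h | h)
  · refine ⟨d.2, ?_⟩
    rw [nb_apply, Equiv.eq_symm_apply, eS_apply y, h, eS_apply x, gen, FreeGroup.mul_mk]
    simp
  · refine ⟨iv d.2, ?_⟩
    rw [nb_apply, Equiv.eq_symm_apply, eS_apply x, h, eS_apply y, gen_iv, eq_mul_inv_iff_mul_eq,
      gen, FreeGroup.mul_mk]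
    simp

theorem walk_adj' (x : SS) (z : L) :
    ∃ d : DD, ((nb eS z x).1 = x.1 ++ [d] ∨ x.1 = (nb eS z x).1 ++ [d]) := by
  have hx : x.1 = typ 1 (eS x).toWord := by
    rw [toWord_eS]; exact ((mem_SS x.1).mp x.2).1
  by_cases h : (eS x)⁻¹ ∈ St z
  · refine ⟨(chi (eS (nb eS z x)), iv z), Or.inr ?_⟩
    have h1 : (eS (nb eS z x))⁻¹ ∉ St (iv z) := by
      rw [e_nb, mul_inv_rev, ← gen_iv, gen_mul_mem, iv_iv, not_not]; exact h
    have h2 := toWord_mul_gen h1
    rw [e_nb, gen_iv, mul_inv_cancel_right] at h2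
    have hy : (nb eS z x).1 = typ 1 (eS (nb eS z x)).toWord := by
      rw [toWord_eS]; exact ((mem_SS _).mp (nb eS z x).2).1
    rw [hx, hy, h2, typ_append, FreeGroup.mk_toWord, one_mul, e_nb]
  · refine ⟨(chi (eS x), z), Or.inl ?_⟩
    have h2 := toWord_mul_gen h
    rw [nb_apply, eS_symm, h2, typ_append, FreeGroup.mk_toWord, one_mul, ← hx]

theorem walk_uniq (x y : SS) (d d' : DD) (h : y.1 = x.1 ++ [d] ∨ x.1 = y.1 ++ [d])
    (h' : y.1 = x.1 ++ [d'] ∨ x.1 = y.1 ++ [d']) : d = d' := by
  rcases h with h | h <;> rcases h' with h' | h'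
  · rw [h] at h'
    simpa using h'
  · have h1 := congrArg List.length h
    have h2 := congrArg List.length h'
    simp at h1 h2
    omega
  · have h1 := congrArg List.length h
    have h2 := congrArg List.length h'
    simp at h1 h2
    omega
  · rw [h] at h'
    simpa using h'

theorem coef (x y : SS) :
    (∑ d : DD, if (y.1 = x.1 ++ [d] ∨ x.1 = y.1 ++ [d]) then (1 : ℂ) else 0)
      = ∑ z : L, if nb eS z x = y then 1 else 0 := by
  classical
  by_cases h : ∃ z, nb eS z x = y
  · obtain ⟨z, rfl⟩ := h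
    obtain ⟨d, hd⟩ := walk_adj' x z
    rw [Finset.sum_eq_single d, Finset.sum_eq_single z]
    · simp [hd]
    · intro z' _ hz'
      rw [if_neg]
      intro hh
      rw [nb_apply, nb_apply, eS.symm.injective.eq_iff] at hh
      exact hz' (gen_inj (mul_left_cancel hh))
    · intro hh; exact absurd (Finset.mem_univ z) hh
    · intro d' _ hd'
      rw [if_neg]
      intro hh
      exact hd' (walk_uniq x _ _ _ hh hd)
    · intro hh; exact absurd (Finset.mem_univ d) hh
  · rw [Finset.sum_eq_zero, Finset.sum_eq_zero]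
    · intro z _
      rw [if_neg]
      intro hh
      exact h ⟨z, hh⟩
    · intro d _
      rw [if_neg]
      intro hh
      obtain ⟨z, hz⟩ := walk_adj x y d hh
      exact h ⟨z, hz.symm⟩

theorem endpoint (x : SS) :
    (x.1.getLast?.map (fun d => srcD (revD d))).getD 1 = chi (eS x) := by
  have hx : x.1 = typ 1 (eS x).toWord := by
    rw [toWord_eS]; exact ((mem_SS x.1).mp x.2).1
  rcases List.eq_nil_or_concat (eS x).toWord with h | ⟨l, z, h⟩
  · rw [hx, h]
    have : eS x = 1 := FreeGroup.toWord_eq_nil_iff.mp h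
    rw [this]; simp [typ]
  · rw [hx, h]
    rw [List.concat_eq_append, typ_append]
    simp only [List.getLast?_append, List.getLast?_singleton, Option.some_or, Option.map_some,
      Option.getD_some, srcD, revD, one_mul]
    rw [← map_mul, gen, FreeGroup.mul_mk]
    congr 1
    have h1 : (eS x) = FreeGroup.mk (eS x).toWord := FreeGroup.mk_toWord.symm
    rw [h1, h, List.concat_eq_append]

end Pool.Agent.Helper73
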