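import Mathlib

set_option autoImplicit false

namespace Pool.Agent.Helper73

abbrev F := FreeGroup (Fin 2)
abbrev L := Fin 2 × Bool

/-- The group element of a letter. -/
def gen (x : L) : F := FreeGroup.mk [x]

/-- The inverse letter. -/
def iv (x : L) : L := (x.1, !x.2)

@[simp] theorem iv_iv (x : L) : iv (iv x) = x := by simp [iv]

theorem iv_ne (x : L) : iv x ≠ x := by
  intro h
  have := congrArg Prod.snd h
  simp [iv] at this

theorem iv_inj {x y : L} (h : iv x = iv y) : x = y := by
  have := congrArg iv h
  simpa using this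

theorem gen_iv (x : L) : gen (iv x) = (gen x)⁻¹ := by
  simp [gen, iv, FreeGroup.inv_mk, FreeGroup.invRev]

@[simp] theorem toWord_gen (x : L) : (gen x).toWord = [x] := by
  simp [gen, FreeGroup.toWord_mk]

theorem gen_inj {x y : L} (h : gen x = gen y) : x = y := by
  have := congrArg FreeGroup.toWord h
  simpa using this

theorem gen_ne_one (x : L) : gen x ≠ 1 := by
  intro h
  have := congrArg FreeGroup.toWord h
  simp at this

/-- Words starting with the letter `x`. -/
def St (x : L) : Set F := {w | w.toWord.head? = some x}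

theorem mem_St {x : L} {w : F} : w ∈ St x ↔ w.toWord.head? = some x := Iff.rfl

noncomputable instance (x : L) : DecidablePred (· ∈ St x) := Classical.decPred _

theorem one_notMem_St (x : L) : (1 : F) ∉ St x := by simp [mem_St]

theorem gen_mem_St {x y : L} : gen y ∈ St x ↔ y = x := by simp [mem_St]

theorem St_unique {x y : L} {w : F} (h1 : w ∈ St x) (h2 : w ∈ St y) : x = y := by
  rw [mem_St] at h1 h2
  rw [h1] at h2
  exact Option.some.inj h2

theorem exists_St {w : F} (hw : w ≠ 1) : ∃ x, w ∈ St x := by
  rcases h : w.toWord with _ | ⟨a, l⟩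
  · exact absurd (FreeGroup.toWord_eq_nil_iff.mp h) hw
  · exact ⟨a, by simp [mem_St, h]⟩

/-- The word length. -/
def len (w : F) : ℕ := w.toWord.length

theorem toWord_gen_mul (x : L) (u : F) : (gen x * u).toWord =
    List.casesOn u.toWord [x] fun hd tl =>
        if x.1 = hd.1 ∧ x.2 = not hd.2 then tl else x :: hd :: tl := by
  rw [FreeGroup.toWord_mul, toWord_gen, List.singleton_append, FreeGroup.reduce.cons,
    FreeGroup.reduce_toWord]

theorem cancel_iff {x hd : L} : (x.1 = hd.1 ∧ x.2 = not hd.2) ↔ hd = iv x := by
  constructor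
  · rintro ⟨h1, h2⟩
    ext
    · simp [iv, h1]
    · simp [iv, h2]
  · rintro rfl
    simp [iv]

theorem toWord_of_notMem {x : L} {u : F} (hu : u ∉ St (iv x)) :
    (gen x * u).toWord = x :: u.toWord := by
  rw [toWord_gen_mul]
  rcases h : u.toWord with _ | ⟨hd, tl⟩
  · rfl
  · have : hd ≠ iv x := by
      rintro rfl
      exact hu (by simp [mem_St, h])
    simp only []
    rw [if_neg (fun hh => this (cancel_iff.mp hh))]

theorem gen_mul_mem {x : L} {u : F} : gen x * u ∈ St x ↔ u ∉ St (iv x) := by
  constructor
  · intro h hu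
    have h2 : (gen x * u) ∉ St (iv (iv x)) → False := by
      rw [iv_iv]; exact fun hh => hh h
    -- `u = gen (iv x) * (gen x * u)`
    rw [mem_St] at h hu
    rcases hw : u.toWord with _ | ⟨hd, tl⟩
    · rw [hw] at hu; simp at hu
    · rw [hw] at hu
      simp at hu
      subst hu
      have e1 : (gen x * u).toWord = tl := by
        rw [toWord_gen_mul, hw]
        simp only []
        rw [if_pos (cancel_iff.mpr rfl)]
      rw [e1] at h
      rcases tl with _ | ⟨hd', tl'⟩
      · simp at h
      · simp at h
        subst h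
        have e2 : u = gen (iv hd') * (gen hd' * u) := by
          rw [gen_iv]; group
        have e3 : u.toWord = tl' := by
          conv_lhs => rw [e2]
          rw [toWord_gen_mul, e1]
          simp only []
          rw [if_pos (cancel_iff.mpr (by simp))]
        rw [hw] at e3
        have := congrArg List.length e3
        simp at this
        omega
  · intro hu
    rw [mem_St, toWord_of_notMem hu]
    rfl

theorem len_gen_mul {x : L} {u : F} (hu : u ∉ St (iv x)) : len (gen x * u) = len u + 1 := by
  rw [len, toWord_of_notMem hu]; rfl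

/-- Each word in `St x` is `gen x * u` with `u` shorter. -/
theorem exists_decomp {x : L} {w : F} (hw : w ∈ St x) :
    ∃ u, w = gen x * u ∧ u ∉ St (iv x) ∧ len u < len w := by
  refine ⟨(gen x)⁻¹ * w, by group, ?_, ?_⟩
  · rw [← gen_mul_mem]
    rwa [mul_inv_cancel_left]
  · have h : (gen x)⁻¹ * w ∉ St (iv x) := by
      rw [← gen_mul_mem]; rwa [mul_inv_cancel_left]
    have := len_gen_mul h
    rw [mul_inv_cancel_left] at this
    omega

/-- The only edge leaving `St x` is the one between `1` and `gen x`. -/
theorem boundary_aux : ∀ (n : ℕ) (w : F), len w ≤ n → ∀ x y : L, w ∈ St x → w * gen y ∉ St x →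
    w = gen x ∧ y = iv x := by
  intro n
  induction n with
  | zero =>
    intro w hw x y h1 _
    exfalso
    have : w.toWord = [] := List.length_eq_zero_iff.mp (Nat.le_zero.mp hw)
    rw [mem_St, this] at h1
    simp at h1
  | succ n ih =>
    intro w hw x y h1 h2
    obtain ⟨u, rfl, hu, hlen⟩ := exists_decomp h1
    rw [mul_assoc, gen_mul_mem, not_not] at h2
    by_cases hu1 : u = 1
    · subst hu1
      rw [one_mul, gen_mem_St] at h2
      exact ⟨by simp, h2⟩
    · exfalso
      obtain ⟨z, hz⟩ := exists_St hu1
      have hzx : z ≠ iv x := by rintro rfl; exact hu hz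
      have h3 : u * gen y ∉ St z := fun h => hzx (St_unique h h2)
      obtain ⟨h4, h5⟩ := ih u (by omega) z y hz h3
      subst h4 h5
      rw [gen_iv, mul_inv_cancel] at h2
      exact one_notMem_St _ h2

theorem boundary {w : F} {x y : L} (h1 : w ∈ St x) (h2 : w * gen y ∉ St x) :
    w = gen x ∧ y = iv x := boundary_aux _ w le_rfl x y h1 h2

theorem boundary' {w : F} {x y : L} (h1 : w ∉ St x) (h2 : w * gen y ∈ St x) :
    w = 1 ∧ y = x := by
  have h3 : w * gen y * gen (iv y) = w := by rw [gen_iv]; group
  obtain ⟨h4, h5⟩ := boundary (y := iv y) h2 (by rw [h3]; exact h1)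
  have h6 := iv_inj h5
  subst h6
  exact ⟨by simpa using h4, rfl⟩

/-- Inversion of all generators. -/
def io : F →* F := FreeGroup.lift fun i => (FreeGroup.of i)⁻¹

theorem gen_true (i : Fin 2) : gen (i, true) = FreeGroup.of i := rfl
theorem gen_false (i : Fin 2) : gen (i, false) = (FreeGroup.of i)⁻¹ := rfl

theorem io_gen (x : L) : io (gen x) = gen (iv x) := by
  obtain ⟨i, b⟩ := x
  cases b
  · rw [gen_false, map_inv, iv]; simp [io, gen_true]
  · rw [gen_true, iv]; simp [io, gen_false]

theorem io_io (w : F) : io (io w) = w := by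
  have : io.comp io = MonoidHom.id F := by
    ext i
    simp [io]
  exact DFunLike.congr_fun this w

/-- `io` as a permutation. -/
def ioE : F ≃ F := ⟨io, io, io_io, io_io⟩

theorem io_St_aux : ∀ (n : ℕ) (w : F), len w ≤ n → ∀ x : L, w ∈ St x → io w ∈ St (iv x) := by
  intro n
  induction n with
  | zero =>
    intro w hw x h1
    exfalso
    have : w.toWord = [] := List.length_eq_zero_iff.mp (Nat.le_zero.mp hw)
    rw [mem_St, this] at h1
    simp at h1
  | succ n ih =>
    intro w hw x h1
    obtain ⟨u, rfl, hu, hlen⟩ := exists_decomp h1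
    rw [map_mul, io_gen, gen_mul_mem, iv_iv]
    intro hcon
    by_cases hu1 : u = 1
    · subst hu1
      rw [map_one] at hcon
      exact one_notMem_St _ hcon
    · obtain ⟨z, hz⟩ := exists_St hu1
      have h3 := ih u (by omega) z hz
      have h4 := St_unique h3 hcon
      exact hu (by rw [← h4, iv_iv]; exact hz)

theorem io_St {w : F} {x : L} : io w ∈ St (iv x) ↔ w ∈ St x := by
  constructor
  · intro h
    have := io_St_aux _ (io w) le_rfl _ h
    rwa [io_io, iv_iv] at this
  · exact io_St_aux _ w le_rfl x

/-- The sign character: `+1` on the first generator, `-1` on the second. -/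
def chi : F →* ℤˣ := FreeGroup.lift ![1, -1]

/-- The sign character of the length. -/
def par : F →* ℤˣ := FreeGroup.lift fun _ => -1

theorem par_gen (x : L) : par (gen x) = -1 := by
  obtain ⟨i, b⟩ := x
  cases b
  · rw [gen_false, map_inv]; simp [par]
  · rw [gen_true]; simp [par]

theorem chi_io (w : F) : chi (io w) = chi w := by
  have : chi.comp io = chi := by
    ext i
    fin_cases i <;> simp [io, chi]
  exact DFunLike.congr_fun this w

theorem chi_gen (x : L) : chi (gen x) = if x.1 = 0 then 1 else -1 := by
  obtain ⟨i, b⟩ := x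
  cases b
  · rw [gen_false, map_inv]
    fin_cases i <;> simp [chi]
  · rw [gen_true]
    fin_cases i <;> simp [chi]

end Pool.Agent.Helper73
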