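import Mathlib

set_option autoImplicit false

/-! The free product of five groups of order two. -/

namespace Pool.Agent.Helper73.T5

open Monoid

abbrev W := CoprodI (fun _ : Fin 5 => ℤˣ)
abbrev L := Fin 5

/-- The generators (involutions). -/
noncomputable def gen (x : L) : W := CoprodI.of (i := x) (-1 : ℤˣ)

theorem gen_mul_self (x : L) : gen x * gen x = 1 := by
  rw [gen, ← map_mul]; simp

theorem gen_inv (x : L) : (gen x)⁻¹ = gen x := inv_eq_of_mul_eq_one_left (gen_mul_self x)

theorem gen_cancel (x : L) (u : W) : gen x * (gen x * u) = u := by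
  rw [← mul_assoc, gen_mul_self, one_mul]

theorem gen_cancel' (x : L) (u : W) : u * gen x * gen x = u := by
  rw [mul_assoc, gen_mul_self, mul_one]

/-- The reduced word of an element. -/
noncomputable def wd (w : W) : CoprodI.Word (fun _ : Fin 5 => ℤˣ) :=
  CoprodI.Word.equiv (M := fun _ : Fin 5 => ℤˣ) w

theorem wd_mul (x : L) (u : W) : wd (gen x * u) = gen x • wd u := by
  exact mul_smul (gen x) u (CoprodI.Word.empty : CoprodI.Word (fun _ : Fin 5 => ℤˣ))

theorem wd_one : wd 1 = CoprodI.Word.empty := by
  exact one_smul W (CoprodI.Word.empty : CoprodI.Word (fun _ : Fin 5 => ℤˣ))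

theorem wd_inj {u v : W} (h : wd u = wd v) : u = v := CoprodI.Word.equiv.injective h

/-- Elements whose reduced word starts with `x`. -/
def St (x : L) : Set W := {w | (wd w).fstIdx = some x}

theorem mem_St {x : L} {w : W} : w ∈ St x ↔ (wd w).fstIdx = some x := Iff.rfl

noncomputable instance (x : L) : DecidablePred (· ∈ St x) := Classical.decPred _

theorem one_notMem_St (x : L) : (1 : W) ∉ St x := by
  rw [mem_St, wd_one]
  simp [CoprodI.Word.fstIdx, CoprodI.Word.empty]

theorem St_unique {x y : L} {w : W} (h1 : w ∈ St x) (h2 : w ∈ St y) : x = y := by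
  rw [mem_St] at h1 h2
  rw [h1] at h2
  exact Option.some.inj h2

/-- The word length. -/
noncomputable def len (w : W) : ℕ := (wd w).toList.length

theorem wd_of_notMem {x : L} {u : W} (hu : (wd u).fstIdx ≠ some x) :
    wd (gen x * u) = CoprodI.Word.cons (i := x) (-1 : ℤˣ) (wd u) hu (by decide) := by
  rw [wd_mul, CoprodI.Word.cons_eq_smul]
  rfl

theorem mem_of_notMem {x : L} {u : W} (hu : u ∉ St x) : gen x * u ∈ St x := by
  have hu' : (wd u).fstIdx ≠ some x := hu
  rw [mem_St, wd_of_notMem hu', CoprodI.Word.fstIdx_cons]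

theorem len_gen_mul {x : L} {u : W} (hu : u ∉ St x) : len (gen x * u) = len u + 1 := by
  have hu' : (wd u).fstIdx ≠ some x := hu
  rw [len, wd_of_notMem hu']
  simp [CoprodI.Word.cons, len]

/-- Each element different from `1` starts with some letter, and is `gen x * u`. -/
theorem exists_decomp' {w : W} (hw : w ≠ 1) : ∃ x u, w = gen x * u ∧ u ∉ St x := by
  have key : ∀ v : CoprodI.Word (fun _ : Fin 5 => ℤˣ), ∀ w : W, wd w = v → w ≠ 1 →
      ∃ x u, w = gen x * u ∧ u ∉ St x := by
    intro v
    induction v using CoprodI.Word.consRecOn with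
    | empty =>
      intro w h1 h2
      exact absurd (wd_inj (h1.trans wd_one.symm)) h2
    | cons i m v h1 h2 _ =>
      intro w hw1 _
      have hm : m = -1 := by
        rcases Int.units_eq_one_or m with h | h
        · exact absurd h h2
        · exact h
      subst hm
      have hu : wd (CoprodI.Word.prod v) = v := CoprodI.Word.equiv.apply_symm_apply v
      refine ⟨i, CoprodI.Word.prod v, ?_, ?_⟩
      · apply wd_inj
        rw [hw1, wd_mul, hu, CoprodI.Word.cons_eq_smul]
        rfl
      · rw [mem_St, hu]; exact h1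
  exact key _ w rfl hw

theorem gen_mul_mem {x : L} {u : W} : gen x * u ∈ St x ↔ u ∉ St x := by
  constructor
  · intro h hu
    have hu1 : u ≠ 1 := by rintro rfl; exact one_notMem_St x hu
    obtain ⟨y, v, rfl, hv⟩ := exists_decomp' hu1
    have hxy : x = y := St_unique hu (mem_of_notMem hv)
    subst hxy
    rw [gen_cancel] at h
    exact hv h
  · exact mem_of_notMem

theorem gen_mem_St {x y : L} : gen y ∈ St x ↔ y = x := by
  have h : gen y ∈ St y := by
    have := mem_of_notMem (one_notMem_St y)
    rwa [mul_one] at this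
  constructor
  · intro h1; exact St_unique h h1
  · rintro rfl; exact h

theorem gen_inj {x y : L} (h : gen x = gen y) : x = y :=
  gen_mem_St.mp (by rw [h]; exact gen_mem_St.mpr rfl)

theorem gen_ne_one (x : L) : gen x ≠ 1 := by
  intro h
  exact one_notMem_St x (by rw [← h]; exact gen_mem_St.mpr rfl)

theorem exists_St {w : W} (hw : w ≠ 1) : ∃ x, w ∈ St x := by
  obtain ⟨x, u, rfl, hu⟩ := exists_decomp' hw
  exact ⟨x, mem_of_notMem hu⟩

theorem exists_decomp {x : L} {w : W} (hw : w ∈ St x) :
    ∃ u, w = gen x * u ∧ u ∉ St x ∧ len u < len w := by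
  have hw1 : w ≠ 1 := by rintro rfl; exact one_notMem_St x hw
  obtain ⟨y, v, rfl, hv⟩ := exists_decomp' hw1
  have hxy : x = y := St_unique hw (mem_of_notMem hv)
  subst hxy
  exact ⟨v, rfl, hv, by rw [len_gen_mul hv]; omega⟩

theorem len_zero {w : W} (h : len w = 0) : w = 1 := by
  by_contra hw
  obtain ⟨x, u, rfl, hu⟩ := exists_decomp' hw
  rw [len_gen_mul hu] at h
  omega

theorem boundary_aux : ∀ (n : ℕ) (w : W), len w ≤ n → ∀ x y : L, w ∈ St x → w * gen y ∉ St x →
    w = gen x ∧ y = x := by
  intro n
  induction n with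
  | zero =>
    intro w hw x y h1 _
    exfalso
    have : w = 1 := len_zero (Nat.le_zero.mp hw)
    subst this
    exact one_notMem_St x h1
  | succ n ih =>
    intro w hw x y h1 h2
    obtain ⟨u, rfl, hu, hlen⟩ := exists_decomp h1
    rw [mul_assoc, gen_mul_mem, not_not] at h2
    by_cases hu1 : u = 1
    · subst hu1
      rw [one_mul, gen_mem_St] at h2
      exact ⟨by simp, h2⟩
    · exfalso
      obtain ⟨z, hz⟩ := exists_St hu1
      have hzx : z ≠ x := by rintro rfl; exact hu hz
      have h3 : u * gen y ∉ St z := fun h => hzx (St_unique h h2)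
      obtain ⟨h4, h5⟩ := ih u (by omega) z y hz h3
      subst h4 h5
      rw [gen_mul_self] at h2
      exact one_notMem_St _ h2

theorem boundary {w : W} {x y : L} (h1 : w ∈ St x) (h2 : w * gen y ∉ St x) :
    w = gen x ∧ y = x := boundary_aux _ w le_rfl x y h1 h2

theorem boundary' {w : W} {x y : L} (h1 : w ∉ St x) (h2 : w * gen y ∈ St x) :
    w = 1 ∧ y = x := by
  obtain ⟨h4, h5⟩ := boundary (y := y) h2 (by rw [gen_cancel']; exact h1)
  subst h5
  refine ⟨?_, rfl⟩
  have := congrArg (· * gen y) h4
  simpa [gen_cancel', gen_mul_self] using this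

/-- Automorphism permuting the generators. -/
noncomputable def au (p : Equiv.Perm L) : W →* W :=
  CoprodI.lift fun i => (CoprodI.of (M := fun _ : Fin 5 => ℤˣ) (i := p i))

theorem au_gen (p : Equiv.Perm L) (x : L) : au p (gen x) = gen (p x) := by
  rw [au, gen, CoprodI.lift_of]; rfl

theorem au_of (p : Equiv.Perm L) (i : L) (m : ℤˣ) :
    au p (CoprodI.of (M := fun _ : Fin 5 => ℤˣ) (i := i) m)
      = CoprodI.of (M := fun _ : Fin 5 => ℤˣ) (i := p i) m := by
  rw [au, CoprodI.lift_of]

theorem au_au (p : Equiv.Perm L) (w : W) : au p.symm (au p w) = w := by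
  have : (au p.symm).comp (au p) = MonoidHom.id W := by
    refine CoprodI.ext_hom _ _ fun i => ?_
    ext m
    rw [MonoidHom.comp_apply, MonoidHom.comp_apply, au_of, au_of]
    simp
  exact DFunLike.congr_fun this w

noncomputable def auE (p : Equiv.Perm L) : W ≃ W :=
  ⟨au p, au p.symm, au_au p, fun w => by simpa using au_au p.symm w⟩

theorem au_St_aux (p : Equiv.Perm L) : ∀ (n : ℕ) (w : W), len w ≤ n → ∀ x : L, w ∈ St x →
    au p w ∈ St (p x) := by
  intro n
  induction n with
  | zero =>
    intro w hw x h1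
    exfalso
    have : w = 1 := len_zero (Nat.le_zero.mp hw)
    subst this
    exact one_notMem_St x h1
  | succ n ih =>
    intro w hw x h1
    obtain ⟨u, rfl, hu, hlen⟩ := exists_decomp h1
    rw [map_mul, au_gen, gen_mul_mem]
    intro hcon
    by_cases hu1 : u = 1
    · subst hu1
      rw [map_one] at hcon
      exact one_notMem_St _ hcon
    · obtain ⟨z, hz⟩ := exists_St hu1
      have h3 := ih u (by omega) z hz
      have h4 := p.injective (St_unique h3 hcon)
      exact hu (by rw [← h4]; exact hz)

theorem au_St (p : Equiv.Perm L) {w : W} {x : L} : au p w ∈ St (p x) ↔ w ∈ St x := by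
  constructor
  · intro h
    have := au_St_aux p.symm _ (au p w) le_rfl _ h
    rwa [au_au, Equiv.symm_apply_apply] at this
  · exact au_St_aux p _ w le_rfl x

/-- Types of the generators: two of type `1`, three of type `-1`. -/
def ty : L → ℤˣ := ![1, 1, -1, -1, -1]

/-- The sign character. -/
noncomputable def chi : W →* ℤˣ :=
  CoprodI.lift fun i => if ty i = 1 then (1 : ℤˣ →* ℤˣ) else MonoidHom.id ℤˣ

/-- The parity character. -/
noncomputable def par : W →* ℤˣ := CoprodI.lift fun _ => MonoidHom.id ℤˣ

theorem par_gen (x : L) : par (gen x) = -1 := by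
  rw [par, gen, CoprodI.lift_of]; rfl

theorem chi_gen (x : L) : chi (gen x) = ty x := by
  rw [chi, gen, CoprodI.lift_of]
  split_ifs with h
  · rw [h]; rfl
  · rcases Int.units_eq_one_or (ty x) with h' | h'
    · exact absurd h' h
    · rw [h']; rfl

theorem chi_au {p : Equiv.Perm L} (hp : ∀ x, ty (p x) = ty x) (w : W) : chi (au p w) = chi w := by
  have : chi.comp (au p) = chi := by
    refine CoprodI.ext_hom _ _ fun i => ?_
    ext m
    rw [MonoidHom.comp_apply, MonoidHom.comp_apply, au, CoprodI.lift_of, chi, CoprodI.lift_of,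
      MonoidHom.comp_apply, CoprodI.lift_of, hp]
  exact DFunLike.congr_fun this w

end Pool.Agent.Helper73.T5
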